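import Mathlib

set_option autoImplicit false

namespace Pool.Agent.Lib_MP_19f4d1_co

/-- The geometric realization of a finite abstract simplicial complex `K` on the vertex type `V`:
all points with barycentric coordinates `x : V → ℝ` (nonnegative, sum `1`) whose support lies in a
face of `K`. -/
def realization {V : Type} [Fintype V] (K : AbstractSimplicialComplex V) : Set (V → ℝ) :=
  {x | (∀ v, 0 ≤ x v) ∧ ∑ v, x v = 1 ∧ ∃ s ∈ K.faces, ∀ v, x v ≠ 0 → v ∈ s}

/-- A finite free `G`-simplicial complex: a finite abstract simplicial complex `K` on a vertex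
type `V` with a `G`-action on `V` that maps faces to faces and whose induced action
`(g • x) v = x (g⁻¹ • v)` on the geometric realization is free. -/
structure FreeComplex (G : Type) [Group G] where
  V : Type
  [fintypeV : Fintype V]
  [actionV : MulAction G V]
  K : AbstractSimplicialComplex V
  map_mem : ∀ (g : G), ∀ s ∈ K.faces, s.map (MulAction.toPerm g).toEmbedding ∈ K.faces
  free : ∀ (g : G), ∀ x ∈ realization K, (fun v => x (g⁻¹ • v)) = x → g = 1

attribute [instance] FreeComplex.fintypeV FreeComplex.actionV

lemma smul_mem_realization {G : Type} [Group G] (C : FreeComplex G) (g : G) {x : C.V → ℝ}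
    (hx : x ∈ realization C.K) : (fun v => x (g⁻¹ • v)) ∈ realization C.K := by
  obtain ⟨h0, h1, s, hs, hsx⟩ := hx
  refine ⟨fun v => h0 _, ?_, _, C.map_mem g s hs, ?_⟩
  · rw [← h1]
    exact Equiv.sum_comp (MulAction.toPerm g⁻¹) x
  · intro v hv
    have := hsx _ hv
    rw [Finset.mem_map]
    exact ⟨g⁻¹ • v, this, by simp⟩

/-- The space of `C`: the geometric realization with the topology of `V → ℝ`. -/
def FreeComplex.Space {G : Type} [Group G] (C : FreeComplex G) : Type := realization C.K

instance {G : Type} [Group G] (C : FreeComplex G) : TopologicalSpace C.Space :=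
  inferInstanceAs (TopologicalSpace (realization C.K))

/-- The (free) action of `G` on the geometric realization: `(g • x) v = x (g⁻¹ • v)`. -/
instance {G : Type} [Group G] (C : FreeComplex G) : MulAction G C.Space where
  smul g x := ⟨fun v => x.1 (g⁻¹ • v), smul_mem_realization C g x.2⟩
  one_smul x := Subtype.ext (by funext v; change x.1 ((1 : G)⁻¹ • v) = x.1 v; simp)
  mul_smul g h x := Subtype.ext (by
    funext v
    change x.1 ((g * h)⁻¹ • v) = x.1 (h⁻¹ • (g⁻¹ • v))
    simp [mul_smul])

/-- `E_k G = G^{*(k+1)}`, the `(k+1)`-fold join of `G` with the diagonal left action, as a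
simplicial complex: its vertices are the pairs `(a, i)` with `a : G` in the `i`-th copy of `G`
(`i : Fin (k + 1)`), its faces are the nonempty sets of vertices with at most one vertex in each
copy, and `g • (a, i) = (g * a, i)`. -/
def joinComplex (G : Type) [Group G] [Fintype G] (k : ℕ) : FreeComplex G where
  V := G × Fin (k + 1)
  actionV :=
    { smul := fun g v => (g * v.1, v.2)
      one_smul := fun v => by
        change (1 * v.1, v.2) = v
        simp
      mul_smul := fun g h v => by
        change (g * h * v.1, v.2) = (g * (h * v.1), v.2)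
        rw [mul_assoc] }
  K :=
    { faces := {s | s.Nonempty ∧ ∀ v ∈ s, ∀ w ∈ s, v.2 = w.2 → v = w}
      isRelLowerSet_faces := fun s hs =>
        ⟨hs.1, fun t hts ht => ⟨ht, fun v hv w hw h => hs.2 v (hts hv) w (hts hw) h⟩⟩
      singleton_mem := fun v => ⟨Finset.singleton_nonempty v, by
        intro a ha b hb _
        rw [Finset.mem_singleton] at ha hb
        rw [ha, hb]⟩ }
  map_mem := by
    rintro g s ⟨hs, hs'⟩
    refine ⟨by simpa using hs, ?_⟩
    intro v hv w hw h
    rw [Finset.mem_map] at hv hw
    obtain ⟨v', hv', rfl⟩ := hv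
    obtain ⟨w', hw', rfl⟩ := hw
    rw [hs' v' hv' w' hw' h]
  free := by
    rintro g x ⟨_, h1, s, ⟨_, hs⟩, hsx⟩ hgx
    obtain ⟨v, hv⟩ : ∃ v, x v ≠ 0 := by
      by_contra hcon
      push Not at hcon
      simp [hcon] at h1
    have hv' : x (g⁻¹ * v.1, v.2) ≠ 0 := by
      have := congrFun hgx v
      change x (g⁻¹ * v.1, v.2) = x v at this
      rwa [this]
    have := hs _ (hsx _ hv') _ (hsx _ hv) rfl
    have h2 : g⁻¹ * v.1 = v.1 := congrArg Prod.fst this
    simpa using h2

/-- The mapping index of a `G`-space `X`: the least `k` such that there is a continuous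
`G`-equivariant map `X → E_k G` (and `⊤` if there is no such `k`). -/
noncomputable def ind (G : Type) [Group G] [Fintype G] (X : Type) [TopologicalSpace X]
    [MulAction G X] : ℕ∞ :=
  sInf {n : ℕ∞ | ∃ k : ℕ, n = k ∧ ∃ f : X →[G] (joinComplex G k).Space, Continuous f}

/-- Nice groups: cyclic `p`-groups (nontrivial) and generalized quaternion groups of order a
power of `2`; Mathlib's `QuaternionGroup n` has order `4 * n`. -/
def IsNice (G : Type) [Group G] : Prop :=
  (IsCyclic G ∧ ∃ p k : ℕ, p.Prime ∧ 1 ≤ k ∧ Nat.card G = p ^ k) ∨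
    ∃ m : ℕ, 1 ≤ m ∧ Nonempty (G ≃* QuaternionGroup (2 ^ m))

end Pool.Agent.Lib_MP_19f4d1_co
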