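import Mathlib
import Pool.Agent.Lib_MP_19f4d1_co.Defs

set_option autoImplicit false

namespace Pool.Agent.Lib_MP_19f4d1_co

set_option linter.unusedSectionVars false

section general

variable {G : Type} [Group G] [Fintype G]

@[simp] lemma smul_apply (C : FreeComplex G) (g : G) (x : C.Space) (v : C.V) :
    (g • x).1 v = x.1 (g⁻¹ • v) := rfl

lemma join_smul (k : ℕ) (g : G) (v : (joinComplex G k).V) :
    g • v = ((g * v.1, v.2) : G × Fin (k + 1)) := rfl

/-- every point of the realization has a vertex in its support -/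
lemma exists_ne_zero {V : Type} [Fintype V] {K : AbstractSimplicialComplex V} {x : V → ℝ}
    (hx : x ∈ realization K) : ∃ v, x v ≠ 0 := by
  by_contra hcon
  push Not at hcon
  have := hx.2.1
  simp [hcon] at this

/-! ### Maps out of products given on vertices -/

/-- A vertex map `Λ` on pairs of vertices that is equivariant and sends products of faces into
faces induces a continuous equivariant map from the product of the realizations. -/
lemma exists_product_map (A B C : FreeComplex G) (Λ : A.V → B.V → C.V)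
    (hΛ : ∀ (g : G) u v, Λ (g • u) (g • v) = g • Λ u v)
    (hface : ∀ s ∈ A.K.faces, ∀ t ∈ B.K.faces, ∃ r ∈ C.K.faces, ∀ u ∈ s, ∀ v ∈ t, Λ u v ∈ r) :
    ∃ f : (A.Space × B.Space) →[G] C.Space, Continuous f := by
  classical
  let F : (A.V → ℝ) × (B.V → ℝ) → (C.V → ℝ) := fun p w =>
    ∑ u, ∑ v, if Λ u v = w then p.1 u * p.2 v else 0
  have hFmem : ∀ x ∈ realization A.K, ∀ y ∈ realization B.K, F (x, y) ∈ realization C.K := by
    rintro x ⟨hx0, hx1, s, hs, hsx⟩ y ⟨hy0, hy1, t, ht, hty⟩
    obtain ⟨r, hr, hr'⟩ := hface s hs t ht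
    refine ⟨fun w => ?_, ?_, r, hr, ?_⟩
    · refine Finset.sum_nonneg fun u _ => Finset.sum_nonneg fun v _ => ?_
      split_ifs
      · exact mul_nonneg (hx0 u) (hy0 v)
      · exact le_rfl
    · change ∑ w, ∑ u, ∑ v, (if Λ u v = w then x u * y v else 0) = 1
      rw [Finset.sum_comm]
      calc ∑ u, ∑ w, ∑ v, (if Λ u v = w then x u * y v else 0)
          = ∑ u, ∑ v, ∑ w, (if Λ u v = w then x u * y v else 0) := by
            refine Finset.sum_congr rfl fun u _ => ?_
            rw [Finset.sum_comm]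
        _ = ∑ u, ∑ v, x u * y v := by simp
        _ = (∑ u, x u) * ∑ v, y v := by rw [Finset.sum_mul_sum]
        _ = 1 := by rw [hx1, hy1, one_mul]
    · intro w hw
      by_contra hwr
      apply hw
      refine Finset.sum_eq_zero fun u _ => Finset.sum_eq_zero fun v _ => ?_
      split_ifs with h
      · by_cases hu : x u = 0
        · simp [hu]
        · by_cases hv : y v = 0
          · simp [hv]
          · exact absurd (h ▸ hr' u (hsx u hu) v (hty v hv)) hwr
      · rfl
  have hFcont : Continuous F := by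
    refine continuous_pi fun w => ?_
    refine continuous_finsetSum _ fun u _ => continuous_finsetSum _ fun v _ => ?_
    split_ifs
    · fun_prop
    · fun_prop
  refine ⟨⟨fun p => ⟨F (p.1.1, p.2.1), hFmem _ p.1.2 _ p.2.2⟩, ?_⟩, ?_⟩
  · rintro g ⟨x, y⟩
    apply Subtype.ext
    funext w
    change ∑ u, ∑ v, (if Λ u v = w then x.1 (g⁻¹ • u) * y.1 (g⁻¹ • v) else 0) =
      ∑ u, ∑ v, (if Λ u v = g⁻¹ • w then x.1 u * y.1 v else 0)
    rw [← Equiv.sum_comp (MulAction.toPerm g)]
    refine Finset.sum_congr rfl fun u _ => ?_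
    rw [← Equiv.sum_comp (MulAction.toPerm g)]
    refine Finset.sum_congr rfl fun v _ => ?_
    simp only [MulAction.toPerm_apply, inv_smul_smul, hΛ]
    congr 1
    rw [eq_iff_iff]
    constructor
    · intro h
      rw [← h, inv_smul_smul]
    · intro h
      rw [h, smul_inv_smul]
  · refine Continuous.subtype_mk ?_ _
    exact hFcont.comp (Continuous.prodMk (continuous_subtype_val.comp continuous_fst)
      (continuous_subtype_val.comp continuous_snd))

/-! ### The dimension bound -/

/-- On the points with trivial stabilizer there is an equivariant map to `G`. -/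
lemma exists_label {S : Type} [MulAction G S] :
    ∃ l : S → G, ∀ s, (∀ g : G, g • s = s → g = 1) → ∀ g : G, l (g • s) = g * l s := by
  classical
  have h : ∀ s : S, ∃ g : G, g • (Quotient.out (Quotient.mk (MulAction.orbitRel G S) s)) = s := by
    intro s
    have h1 : Quotient.mk (MulAction.orbitRel G S)
        (Quotient.out (Quotient.mk (MulAction.orbitRel G S) s)) =
        Quotient.mk (MulAction.orbitRel G S) s := Quotient.out_eq _
    have h2 := Quotient.exact h1
    change (MulAction.orbitRel G S) _ _ at h2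
    rw [MulAction.orbitRel_apply, MulAction.mem_orbit_iff] at h2
    obtain ⟨g, hg⟩ := h2
    exact ⟨g⁻¹, by rw [inv_smul_eq_iff, hg]⟩
  choose l hl using h
  refine ⟨l, fun s hs g => ?_⟩
  have e : Quotient.mk (MulAction.orbitRel G S) (g • s) = Quotient.mk (MulAction.orbitRel G S) s :=
    Quotient.sound (by
      change (MulAction.orbitRel G S) _ _
      rw [MulAction.orbitRel_apply, MulAction.mem_orbit_iff]
      exact ⟨g, rfl⟩)
  have h1 := hl (g • s)
  rw [e] at h1
  have h2 := hl s
  set r := Quotient.out (Quotient.mk (MulAction.orbitRel G S) s) with hr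
  have h3 : (l s * (l (g • s))⁻¹ * g) • s = s := by
    rw [mul_smul, mul_smul, (inv_smul_eq_iff.mpr h1.symm : (l (g • s))⁻¹ • g • s = r)]
    exact h2
  have h4 := hs _ h3
  have h5 : l s * (l (g • s))⁻¹ * g = 1 := h4
  have h6 : (l (g • s))⁻¹ * (g * l s) = 1 := by
    have : (l (g • s))⁻¹ * (g * l s) = (l s)⁻¹ * (l s * (l (g • s))⁻¹ * g) * l s := by group
    rw [this, h5]
    group
  rw [inv_mul_eq_one] at h6
  exact h6

/-- `gap x s > 0` exactly when every value of `x` on `s` is positive and exceeds every value of `x`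
outside `s`. -/
noncomputable def gap {V : Type} [Fintype V] [DecidableEq V] (x : V → ℝ) (s : Finset V) : ℝ :=
  (∏ v ∈ s, max 0 (x v)) * ∏ v ∈ s, ∏ w ∈ sᶜ, max 0 (x v - x w)

lemma gap_nonneg {V : Type} [Fintype V] [DecidableEq V] (x : V → ℝ) (s : Finset V) :
    0 ≤ gap x s := by
  unfold gap
  refine mul_nonneg (Finset.prod_nonneg fun v _ => le_max_left _ _)
    (Finset.prod_nonneg fun v _ => Finset.prod_nonneg fun w _ => le_max_left _ _)

lemma gap_ne_zero {V : Type} [Fintype V] [DecidableEq V] {x : V → ℝ} {s : Finset V}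
    (h : gap x s ≠ 0) : (∀ v ∈ s, 0 < x v) ∧ ∀ v ∈ s, ∀ w ∉ s, x w < x v := by
  unfold gap at h
  have h1 := left_ne_zero_of_mul h
  have h2 := right_ne_zero_of_mul h
  rw [Finset.prod_ne_zero_iff] at h1 h2
  refine ⟨fun v hv => ?_, fun v hv w hw => ?_⟩
  · by_contra hcon
    exact h1 v hv (max_eq_left (not_lt.mp hcon))
  · have h3 := h2 v hv
    rw [Finset.prod_ne_zero_iff] at h3
    have h4 := h3 w (by simpa using hw)
    by_contra hcon
    exact h4 (max_eq_left (by linarith [not_lt.mp hcon]))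

lemma gap_pos {V : Type} [Fintype V] [DecidableEq V] {x : V → ℝ} {s : Finset V}
    (h1 : ∀ v ∈ s, 0 < x v) (h2 : ∀ v ∈ s, ∀ w ∉ s, x w < x v) : 0 < gap x s := by
  unfold gap
  refine mul_pos (Finset.prod_pos fun v hv => lt_max_of_lt_right (h1 v hv))
    (Finset.prod_pos fun v hv => Finset.prod_pos fun w hw => lt_max_of_lt_right ?_)
  have := h2 v hv w (by simpa using hw)
  linarith

lemma gap_unique {V : Type} [Fintype V] [DecidableEq V] {x : V → ℝ} {s t : Finset V}
    (hs : gap x s ≠ 0) (ht : gap x t ≠ 0) (hst : s.card = t.card) : s = t := by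
  by_contra hne
  obtain ⟨v, hv, hvt⟩ : ∃ v ∈ s, v ∉ t := by
    by_contra hcon
    push Not at hcon
    exact hne (Finset.eq_of_subset_of_card_le hcon hst.ge)
  obtain ⟨w, hw, hws⟩ : ∃ w ∈ t, w ∉ s := by
    by_contra hcon
    push Not at hcon
    exact hne (Finset.eq_of_subset_of_card_le hcon hst.le).symm
  have h1 := (gap_ne_zero hs).2 v hv w hws
  have h2 := (gap_ne_zero ht).2 w hw v hvt
  linarith

lemma gap_continuous {V : Type} [Fintype V] [DecidableEq V] (s : Finset V) :
    Continuous fun x : V → ℝ => gap x s := by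
  unfold gap
  refine Continuous.mul (continuous_finsetProd _ fun v _ => by fun_prop)
    (continuous_finsetProd _ fun v _ => continuous_finsetProd _ fun w _ => by fun_prop)

lemma gap_map {V : Type} [Fintype V] [DecidableEq V] (σ : Equiv.Perm V) (x : V → ℝ)
    (s : Finset V) : gap (fun v => x (σ.symm v)) (s.map σ.toEmbedding) = gap x s := by
  unfold gap
  have : (s.map σ.toEmbedding)ᶜ = sᶜ.map σ.toEmbedding := by
    ext w
    simp only [Finset.mem_compl, Finset.mem_map_equiv]
  rw [this]
  simp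

/-- The action of `G` on the finite subsets of the vertex set. -/
@[reducible] def finsetAction {V : Type} [MulAction G V] : MulAction G (Finset V) where
  smul g s := s.map (MulAction.toPerm g).toEmbedding
  one_smul s := by
    ext v
    change v ∈ s.map (MulAction.toPerm (1 : G)).toEmbedding ↔ _
    simp
  mul_smul g h s := by
    ext v
    change v ∈ s.map (MulAction.toPerm (g * h)).toEmbedding ↔
      v ∈ (s.map (MulAction.toPerm h).toEmbedding).map (MulAction.toPerm g).toEmbedding
    simp [mul_smul]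

/-- A finite free `G`-complex all of whose faces have at most `n + 1` vertices admits a continuous
equivariant map to `E_n G`. -/
lemma exists_map_of_card_le (C : FreeComplex G) (n : ℕ)
    (hn : ∀ s ∈ C.K.faces, s.card ≤ n + 1) :
    ∃ f : C.Space →[G] (joinComplex G n).Space, Continuous f := by
  classical
  let _ : MulAction G (Finset C.V) := finsetAction
  obtain ⟨l, hl⟩ := exists_label (G := G) (S := Finset C.V)
  have hsm : ∀ (g : G) (s : Finset C.V), g • s = s.map (MulAction.toPerm g).toEmbedding :=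
    fun g s => rfl
  -- faces have trivial stabilizer
  have hst : ∀ s ∈ C.K.faces, ∀ g : G, g • s = s → g = 1 := by
    intro s hs g hg
    have hne : s.Nonempty := (C.K.isRelLowerSet_faces hs).1
    have hc : (s.card : ℝ) ≠ 0 := by
      have := hne.card_pos
      positivity
    refine C.free g (fun v => if v ∈ s then (s.card : ℝ)⁻¹ else 0) ⟨fun v => ?_, ?_, s, hs, ?_⟩ ?_
    · change 0 ≤ (if v ∈ s then (s.card : ℝ)⁻¹ else 0)
      split_ifs <;> positivity
    · rw [Finset.sum_ite_mem, Finset.univ_inter, Finset.sum_const, nsmul_eq_mul,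
        mul_inv_cancel₀ hc]
    · intro v hv
      by_contra hcon
      simp [hcon] at hv
    · funext v
      have : g⁻¹ • v ∈ s ↔ v ∈ s := by
        constructor
        · intro h
          rw [← hg, hsm, Finset.mem_map]
          exact ⟨_, h, by simp⟩
        · intro h
          rw [← hg, hsm, Finset.mem_map] at h
          obtain ⟨w, hw, rfl⟩ := h
          simpa using hw
      simp only [this]
  have hinv : ∀ (g : G) (s : Finset C.V), g • s ∈ C.K.faces ↔ s ∈ C.K.faces := by
    intro g s
    constructor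
    · intro h
      have := C.map_mem g⁻¹ _ h
      rw [← hsm, inv_smul_smul] at this
      exact this
    · intro h
      exact C.map_mem g s h
  -- unnormalized coordinates
  let Y : (C.V → ℝ) → (G × Fin (n + 1) → ℝ) := fun x w =>
    ∑ s : Finset C.V, if s ∈ C.K.faces ∧ s.card = w.2.val + 1 ∧ l s = w.1 then gap x s else 0
  let T : (C.V → ℝ) → ℝ := fun x => ∑ w, Y x w
  have hY0 : ∀ x w, 0 ≤ Y x w := by
    intro x w
    refine Finset.sum_nonneg fun s _ => ?_
    split_ifs
    · exact gap_nonneg x s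
    · exact le_rfl
  have hYne : ∀ x w, Y x w ≠ 0 → ∃ s ∈ C.K.faces, s.card = w.2.val + 1 ∧ l s = w.1 ∧
      gap x s ≠ 0 := by
    intro x w h
    obtain ⟨s, _, hs⟩ := Finset.exists_ne_zero_of_sum_ne_zero h
    split_ifs at hs with h'
    · exact ⟨s, h'.1, h'.2.1, h'.2.2, hs⟩
    · exact absurd rfl hs
  have hT : ∀ x ∈ realization C.K, 0 < T x := by
    intro x hx
    obtain ⟨v₀, hv₀⟩ := exists_ne_zero hx
    obtain ⟨hx0, hx1, s, hs, hsx⟩ := hx
    have : Nonempty C.V := ⟨v₀⟩
    obtain ⟨m, hm⟩ := Finite.exists_max x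
    let t : Finset C.V := Finset.univ.filter fun v => x v = x m
    have hxm : 0 < x m := lt_of_lt_of_le (lt_of_le_of_ne (hx0 v₀) (Ne.symm hv₀)) (hm v₀)
    have htne : t.Nonempty := ⟨m, by simp [t]⟩
    have hts : t ⊆ s := by
      intro v hv
      refine hsx v ?_
      have : x v = x m := by simpa [t] using hv
      rw [this]
      exact hxm.ne'
    have ht : t ∈ C.K.faces := (C.K.isRelLowerSet_faces hs).2 hts htne
    have hgap : 0 < gap x t := by
      refine gap_pos ?_ ?_
      · intro v hv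
        have : x v = x m := by simpa [t] using hv
        rw [this]
        exact hxm
      · intro v hv w hw
        have h1 : x v = x m := by simpa [t] using hv
        have h2 : x w ≠ x m := by simpa [t] using hw
        rw [h1]
        exact lt_of_le_of_ne (hm w) h2
    have hcard := hn t ht
    have hpos := htne.card_pos
    let w₀ : G × Fin (n + 1) := (l t, ⟨t.card - 1, by omega⟩)
    have h3 : gap x t ≤ Y x w₀ := by
      have hc : t ∈ C.K.faces ∧ t.card = w₀.2.val + 1 ∧ l t = w₀.1 :=
        ⟨ht, by change t.card = t.card - 1 + 1; omega, rfl⟩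
      have := Finset.single_le_sum (f := fun s : Finset C.V =>
        if s ∈ C.K.faces ∧ s.card = w₀.2.val + 1 ∧ l s = w₀.1 then gap x s else 0)
        (fun s _ => by
          split_ifs
          · exact gap_nonneg x s
          · exact le_rfl) (Finset.mem_univ t)
      simp only [if_pos hc] at this
      exact this
    have h4 : Y x w₀ ≤ T x := Finset.single_le_sum (fun w _ => hY0 x w) (Finset.mem_univ w₀)
    linarith
  have hYcont : Continuous Y := by
    refine continuous_pi fun w => continuous_finsetSum _ fun s _ => ?_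
    split_ifs
    · exact gap_continuous s
    · fun_prop
  have hTcont : Continuous T := continuous_finsetSum _ fun w _ => (continuous_pi_iff.mp hYcont) w
  have hYeq : ∀ (g : G) (x : C.V → ℝ) (w : G × Fin (n + 1)),
      Y (fun v => x (g⁻¹ • v)) w = Y x (g⁻¹ * w.1, w.2) := by
    intro g x w
    change ∑ s : Finset C.V, _ = ∑ s : Finset C.V, _
    rw [← Equiv.sum_comp (MulAction.toPerm g : Equiv.Perm (Finset C.V))]
    refine Finset.sum_congr rfl fun s _ => ?_
    rw [MulAction.toPerm_apply]
    by_cases hs : s ∈ C.K.faces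
    · have h1 : g • s ∈ C.K.faces := (hinv g s).mpr hs
      have h2 : (g • s).card = s.card := by rw [hsm, Finset.card_map]
      have h3 : l (g • s) = g * l s := hl s (hst s hs) g
      have h4 : gap (fun v => x (g⁻¹ • v)) (g • s) = gap x s := by
        rw [hsm]
        exact gap_map (MulAction.toPerm g) x s
      rw [h2, h3, h4]
      simp only [hs, h1, true_and, eq_inv_mul_iff_mul_eq]
    · have h1 : ¬ g • s ∈ C.K.faces := fun h => hs ((hinv g s).mp h)
      simp only [hs, h1, false_and, if_false]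
  have hTeq : ∀ (g : G) (x : C.V → ℝ), T (fun v => x (g⁻¹ • v)) = T x := by
    intro g x
    change ∑ w, Y (fun v => x (g⁻¹ • v)) w = ∑ w, Y x w
    rw [← Equiv.sum_comp (Equiv.prodCongr (Equiv.mulLeft g) (Equiv.refl (Fin (n + 1))))]
    refine Finset.sum_congr rfl fun w _ => ?_
    rw [hYeq]
    simp
  have hmem : ∀ x ∈ realization C.K,
      (fun w => Y x w / T x) ∈ realization (joinComplex G n).K := by
    intro x hx
    have hTx := hT x hx
    refine ⟨fun w => div_nonneg (hY0 x w) hTx.le, ?_, ?_⟩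
    · change ∑ w, Y x w / T x = 1
      rw [← Finset.sum_div]
      exact div_self hTx.ne'
    · refine ⟨Finset.univ.filter fun w => Y x w ≠ 0, ⟨?_, ?_⟩, ?_⟩
      · obtain ⟨w, _, hw⟩ := Finset.exists_ne_zero_of_sum_ne_zero hTx.ne'
        exact ⟨w, Finset.mem_filter.mpr ⟨Finset.mem_univ _, hw⟩⟩
      · intro v hv w hw hvw
        have hv' : Y x v ≠ 0 := (Finset.mem_filter.mp hv).2
        have hw' : Y x w ≠ 0 := (Finset.mem_filter.mp hw).2
        obtain ⟨s, _, hs1, hs2, hs3⟩ := hYne x v hv'
        obtain ⟨t, _, ht1, ht2, ht3⟩ := hYne x w hw'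
        have hst' : s = t := gap_unique hs3 ht3 (by rw [hs1, ht1, hvw])
        exact Prod.ext (by rw [← hs2, ← ht2, hst']) hvw
      · intro w hw
        refine Finset.mem_filter.mpr ⟨Finset.mem_univ _, ?_⟩
        intro h
        apply hw
        change Y x w / T x = 0
        rw [h, zero_div]
  refine ⟨⟨fun x => ⟨fun w => Y x.1 w / T x.1, hmem x.1 x.2⟩, ?_⟩, ?_⟩
  · intro g x
    apply Subtype.ext
    funext w
    change Y (fun v => x.1 (g⁻¹ • v)) w / T (fun v => x.1 (g⁻¹ • v)) =
      Y x.1 (g⁻¹ * w.1, w.2) / T x.1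
    exact congrArg₂ (· / ·) (hYeq g x.1 w) (hTeq g x.1)
  · refine Continuous.subtype_mk ?_ _
    refine continuous_pi fun w => ?_
    refine Continuous.div ?_ ?_ ?_
    · exact ((continuous_pi_iff.mp hYcont) w).comp continuous_subtype_val
    · exact hTcont.comp continuous_subtype_val
    · intro x
      exact (hT x.1 x.2).ne'

end general



/-! ### Logarithms and the edge cocycle -/

lemma exists_log {A : Type} [TopologicalSpace A] [SimplyConnectedSpace A]
    [LocallyPathConnectedSpace A] (z : A → ℂ) (hz : Continuous z) (h0 : ∀ a, z a ≠ 0) :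
    ∃ L : A → ℂ, Continuous L ∧ ∀ a, Complex.exp (L a) = z a := by
  obtain ⟨a₀⟩ : Nonempty A := inferInstance
  obtain ⟨F, ⟨_, hF⟩, _⟩ := IsCoveringMapOn.existsUnique_continuousMap_lifts
    Complex.isCoveringMapOn_exp ⟨z, hz⟩ (a₀ := a₀) (e₀ := Complex.log (z a₀))
    (by simp [Complex.exp_log (h0 a₀)]) (by intro a; simpa using h0 a)
  exact ⟨F, F.continuous, fun a => congrFun hF a⟩

/-- A continuous function `ℝ → ℂ` with `exp ∘ L` constant is constant. -/
lemma const_of_exp_const (L : ℝ → ℂ) (hL : Continuous L) (c : ℂ)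
    (hc : ∀ t, Complex.exp (L t) = c) (s t : ℝ) : L s = L t := by
  have h0 : c ≠ 0 := by rw [← hc 0]; exact Complex.exp_ne_zero _
  obtain ⟨F, ⟨hF0, hF⟩, huniq⟩ := IsCoveringMapOn.existsUnique_continuousMap_lifts
    Complex.isCoveringMapOn_exp (A := ℝ) ⟨fun _ => c, continuous_const⟩ (a₀ := s) (e₀ := L s)
    (by simpa using hc s) (by intro a; simpa using h0)
  have h1 := huniq ⟨L, hL⟩ ⟨rfl, by funext a; simpa using hc a⟩
  have h2 := huniq ⟨fun _ => L s, continuous_const⟩ ⟨rfl, by funext a; simpa using hc s⟩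
  have h3 : (⟨L, hL⟩ : C(ℝ, ℂ)) = ⟨fun _ => L s, continuous_const⟩ := h1.trans h2.symm
  have h4 := congrArg (fun F : C(ℝ, ℂ) => F t) h3
  simpa using h4.symm

section cocycle

variable {V : Type} [Fintype V] [DecidableEq V]

/-- clamp to `[0,1]` -/
noncomputable def cl (t : ℝ) : ℝ := max 0 (min 1 t)

lemma cl_cont : Continuous cl := by unfold cl; fun_prop
lemma cl_nonneg (t : ℝ) : 0 ≤ cl t := le_max_left _ _
lemma cl_le (t : ℝ) : cl t ≤ 1 := max_le zero_le_one (min_le_left _ _)
@[simp] lemma cl_zero : cl 0 = 0 := by simp [cl]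
@[simp] lemma cl_one : cl 1 = 1 := by simp [cl]

/-- the vertex `u` as a point -/
def pt (u : V) : V → ℝ := fun w => if w = u then 1 else 0

/-- a parametrized triangle -/
noncomputable def tri (u v w : V) (p : ℝ × ℝ) : V → ℝ := fun x =>
  (1 - cl p.1) * pt u x + cl p.1 * ((1 - cl p.2) * pt v x + cl p.2 * pt w x)

/-- a parametrized edge -/
noncomputable def seg (u v : V) (t : ℝ) : V → ℝ := fun x => (1 - cl t) * pt u x + cl t * pt v x

lemma tri_cont (u v w : V) : Continuous (tri u v w) := by
  unfold tri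
  refine continuous_pi fun x => ?_
  have h1 : Continuous fun p : ℝ × ℝ => cl p.1 := cl_cont.comp continuous_fst
  have h2 : Continuous fun p : ℝ × ℝ => cl p.2 := cl_cont.comp continuous_snd
  fun_prop

lemma seg_cont (u v : V) : Continuous (seg u v) := by
  unfold seg
  refine continuous_pi fun x => ?_
  have h1 := cl_cont
  fun_prop

lemma pt_nonneg (u x : V) : 0 ≤ pt u x := by unfold pt; split_ifs <;> norm_num

lemma sum_pt (u : V) : ∑ x, pt u x = 1 := by simp [pt]

lemma tri_mem (K : AbstractSimplicialComplex V) (u v w : V) (h : {u, v, w} ∈ K.faces)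
    (p : ℝ × ℝ) : tri u v w p ∈ realization K := by
  have a0 := cl_nonneg p.1
  have a1 := cl_le p.1
  have b0 := cl_nonneg p.2
  have b1 := cl_le p.2
  refine ⟨fun x => ?_, ?_, _, h, ?_⟩
  · have := pt_nonneg u x
    have := pt_nonneg v x
    have := pt_nonneg w x
    unfold tri
    have h1 : 0 ≤ 1 - cl p.1 := by linarith
    have h2 : 0 ≤ 1 - cl p.2 := by linarith
    positivity
  · unfold tri
    simp only [Finset.sum_add_distrib, ← Finset.mul_sum, sum_pt]
    ring
  · intro x hx
    by_contra hcon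
    apply hx
    simp only [Finset.mem_insert, Finset.mem_singleton, not_or] at hcon
    simp [tri, pt, hcon.1, hcon.2.1, hcon.2.2]

lemma seg_eq_tri1 (u v w : V) (t : ℝ) : seg u v t = tri u v w (t, 0) := by
  funext x; simp [seg, tri]
lemma seg_eq_tri2 (u v w : V) (t : ℝ) : seg v w t = tri u v w (1, t) := by
  funext x; simp [seg, tri]
lemma seg_eq_tri3 (u v w : V) (t : ℝ) : seg u w t = tri u v w (t, 1) := by
  funext x; simp [seg, tri]
lemma seg_zero (u v : V) : seg u v 0 = pt u := by funext x; simp [seg]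
lemma seg_one (u v : V) : seg u v 1 = pt v := by funext x; simp [seg]

lemma seg_mem (K : AbstractSimplicialComplex V) (u v : V) (h : {u, v} ∈ K.faces)
    (t : ℝ) : seg u v t ∈ realization K := by
  rw [seg_eq_tri1 u v v]
  exact tri_mem K u v v (by simpa using h) _

lemma pt_mem (K : AbstractSimplicialComplex V) (u : V) : pt u ∈ realization K := by
  rw [← seg_zero u u]
  exact seg_mem K u u (by simpa using K.singleton_mem u) 0

/-- total increment of the logarithm of `z` along the edge from `u` to `v` -/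
noncomputable def delta (z : (V → ℝ) → ℂ) (u v : V) : ℂ :=
  open Classical in
  if h : ∃ L : ℝ → ℂ, Continuous L ∧ ∀ t, Complex.exp (L t) = z (seg u v t) then
    h.choose 1 - h.choose 0 else 0

lemma delta_eq (z : (V → ℝ) → ℂ) (u v : V) (L : ℝ → ℂ) (hL : Continuous L)
    (hL' : ∀ t, Complex.exp (L t) = z (seg u v t)) : delta z u v = L 1 - L 0 := by
  have h : ∃ L : ℝ → ℂ, Continuous L ∧ ∀ t, Complex.exp (L t) = z (seg u v t) := ⟨L, hL, hL'⟩
  unfold delta
  rw [dif_pos h]
  have h1 := h.choose_spec.1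
  have h2 := h.choose_spec.2
  have := const_of_exp_const (fun t => h.choose t - L t) (h1.sub hL) 1 (by
    intro t
    rw [Complex.exp_sub, h2, hL', div_self]
    rw [← hL']
    exact Complex.exp_ne_zero _) 1 0
  linear_combination this

variable (K : AbstractSimplicialComplex V) (z : (V → ℝ) → ℂ)

lemma delta_cocycle (hz : ContinuousOn z (realization K)) (h0 : ∀ x ∈ realization K, z x ≠ 0)
    (u v w : V) (h : {u, v, w} ∈ K.faces) : delta z u v + delta z v w = delta z u w := by
  obtain ⟨L, hL, hL'⟩ := exists_log (fun p : ℝ × ℝ => z (tri u v w p))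
    (hz.comp_continuous (tri_cont u v w) (tri_mem K u v w h)) (fun p => h0 _ (tri_mem K u v w h p))
  rw [delta_eq z u v (fun t => L (t, 0)) (by fun_prop) (fun t => by rw [hL', seg_eq_tri1 u v w]),
    delta_eq z v w (fun t => L (1, t)) (by fun_prop) (fun t => by rw [hL', seg_eq_tri2 u v w]),
    delta_eq z u w (fun t => L (t, 1)) (by fun_prop) (fun t => by rw [hL', seg_eq_tri3 u v w])]
  have := const_of_exp_const (fun t => L (0, t)) (by fun_prop) (z (pt u)) (by
    intro t
    rw [hL']
    congr 1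
    funext x
    simp [tri]) 0 1
  linear_combination -this

lemma exp_delta (hz : ContinuousOn z (realization K)) (h0 : ∀ x ∈ realization K, z x ≠ 0)
    (u v : V) (h : {u, v} ∈ K.faces) : z (pt u) * Complex.exp (delta z u v) = z (pt v) := by
  have h' : {u, v, v} ∈ K.faces := by simpa using h
  obtain ⟨L, hL, hL'⟩ := exists_log (fun p : ℝ × ℝ => z (tri u v v p))
    (hz.comp_continuous (tri_cont u v v) (tri_mem K u v v h'))
    (fun p => h0 _ (tri_mem K u v v h' p))
  have hL0 : ∀ t, Complex.exp (L (t, 0)) = z (seg u v t) :=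
    fun t => by rw [hL', seg_eq_tri1 u v v]
  rw [delta_eq z u v (fun t => L (t, 0)) (by fun_prop) hL0, Complex.exp_sub, hL0, hL0, seg_zero,
    seg_one]
  have : z (pt u) ≠ 0 := by
    rw [← seg_zero u v, ← hL0]
    exact Complex.exp_ne_zero _
  field_simp

lemma delta_equivariant (hz : ContinuousOn z (realization K))
    (h0 : ∀ x ∈ realization K, z x ≠ 0) (σ : Equiv.Perm V) (c : ℂ) (hc : c ≠ 0)
    (hσ : ∀ x ∈ realization K, z (fun v => x (σ.symm v)) = c * z x)
    (u v : V) (h : {u, v} ∈ K.faces) : delta z (σ u) (σ v) = delta z u v := by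
  have h' : {u, v, v} ∈ K.faces := by simpa using h
  obtain ⟨L, hL, hL'⟩ := exists_log (fun p : ℝ × ℝ => z (tri u v v p))
    (hz.comp_continuous (tri_cont u v v) (tri_mem K u v v h'))
    (fun p => h0 _ (tri_mem K u v v h' p))
  have hL0 : ∀ t, Complex.exp (L (t, 0)) = z (seg u v t) :=
    fun t => by rw [hL', seg_eq_tri1 u v v]
  rw [delta_eq z u v (fun t => L (t, 0)) (by fun_prop) hL0,
    delta_eq z (σ u) (σ v) (fun t => L (t, 0) + Complex.log c) (by fun_prop) ?_]
  · ring
  · intro t
    rw [Complex.exp_add, Complex.exp_log hc, hL0]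
    have h1 : seg (σ u) (σ v) t = fun w => seg u v t (σ.symm w) := by
      funext w
      simp [seg, pt, Equiv.symm_apply_eq]
    rw [h1, hσ _ (by rw [seg_eq_tri1 u v v]; exact tri_mem K u v v h' _)]
    ring

end cocycle

/-! ### Maps to the punctured plane -/

section plane

variable {G : Type} [Group G] [Fintype G]

/-- Left multiplication by `c` becomes the shift by `1` in a suitable coordinate. -/
lemma exists_coord (c : G) : ∃ κ : G → ZMod (orderOf c), ∀ g, κ (c * g) = κ g + 1 := by
  obtain ⟨l, hl⟩ := exists_label (G := Subgroup.zpowers c) (S := G)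
  have h1 : ∀ g : G, ∃ i : ℤ, c ^ i = (l g : G) := fun g => Subgroup.mem_zpowers_iff.mp (l g).2
  choose i hi using h1
  refine ⟨fun g => (i g : ZMod (orderOf c)), fun g => ?_⟩
  have h2 : l (c * g) = ⟨c, Subgroup.mem_zpowers c⟩ * l g := by
    refine hl g (fun h hh => ?_) ⟨c, Subgroup.mem_zpowers c⟩
    have : (h : G) * g = g := hh
    exact Subtype.ext (by simpa using this)
  have h3 : c ^ i (c * g) = c ^ (i g + 1) := by
    rw [hi, h2, zpow_add_one, hi]
    have h4 : (l g : G) * c = c * (l g : G) := by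
      rw [← hi g]
      exact ((Commute.refl c).zpow_left (i g)).eq
    rw [h4]
    rfl
  have h5 := zpow_eq_zpow_iff_modEq.mp h3
  have h6 : ((i (c * g) : ℤ) : ZMod (orderOf c)) = ((i g + 1 : ℤ) : ZMod (orderOf c)) :=
    (ZMod.intCast_eq_intCast_iff _ _ _).mpr h5
  change ((i (c * g) : ℤ) : ZMod (orderOf c)) = ((i g : ℤ) : ZMod (orderOf c)) + 1
  rw [h6]
  push_cast
  rfl

/-- a character-like function -/
lemma exists_chi (c : G) (ζ : ℂ) (hζ : ζ ^ orderOf c = 1) :
    ∃ χ : G → ℂ, (∀ g, χ (c * g) = ζ * χ g) ∧ ∀ g, χ g ^ orderOf c = 1 := by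
  obtain ⟨κ, hκ⟩ := exists_coord c
  have : NeZero (orderOf c) := ⟨(orderOf_pos c).ne'⟩
  refine ⟨fun g => ζ ^ (κ g).val, fun g => ?_, fun g => ?_⟩
  · change ζ ^ (κ (c * g)).val = ζ * ζ ^ (κ g).val
    rw [hκ, ZMod.val_add, ← pow_mod_orderOf ζ, ← pow_succ', ← pow_mod_orderOf ζ ((κ g).val + 1)]
    have hd : orderOf ζ ∣ orderOf c := orderOf_dvd_of_pow_eq_one hζ
    congr 1
    rw [Nat.mod_mod_of_dvd _ hd]
    rw [Nat.add_mod, ZMod.val_one_eq_one_mod, Nat.mod_mod_of_dvd _ hd, ← Nat.add_mod]
  · rw [← pow_mul, mul_comm, pow_mul, hζ, one_pow]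

lemma join_props {k : ℕ} {y : G × Fin (k + 1) → ℝ} (hy : y ∈ realization (joinComplex G k).K) :
    (∀ v, 0 ≤ y v) ∧ (∃ v, y v ≠ 0) ∧ ∀ v w, y v ≠ 0 → y w ≠ 0 → v.2 = w.2 → v = w := by
  obtain ⟨a, ha⟩ := exists_ne_zero hy
  obtain ⟨hy0, hy1, s, ⟨hs, hs'⟩, hsy⟩ := hy
  exact ⟨hy0, ⟨a, ha⟩, fun v w hv hw h => hs' v (hsy v hv) w (hsy w hw) h⟩

lemma plane_ne_zero {k : ℕ} (hk : k ≤ 1) {m : ℕ} (hm : 0 < m) (χ : G → ℂ)
    (hχ : ∀ g, χ g ^ m = 1) (ω : ℂ) (hω : IsPrimitiveRoot ω (4 * m)) (y : G × Fin (k + 1) → ℝ)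
    (hy0 : ∀ v, 0 ≤ y v) (hy1 : ∃ v, y v ≠ 0)
    (hy2 : ∀ v w, y v ≠ 0 → y w ≠ 0 → v.2 = w.2 → v = w) :
    ∑ v, (y v : ℂ) * ((if v.2 = 0 then 1 else ω) * χ v.1) ≠ 0 := by
  classical
  intro hzero
  let cf : Fin (k + 1) → ℂ := fun j => if j = 0 then 1 else ω
  have hχn : ∀ g, ‖χ g‖ = 1 := fun g => by
    have := congrArg norm (hχ g)
    rw [norm_pow, norm_one] at this
    exact (pow_eq_one_iff_of_nonneg (norm_nonneg _) (by omega)).mp this
  have hωn : ‖ω‖ = 1 := hω.norm'_eq_one (by omega)
  have hcfn : ∀ j, ‖cf j‖ = 1 := fun j => by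
    by_cases h : j = 0
    · simp [cf, h]
    · simp [cf, h, hωn]
  obtain ⟨a, ha⟩ := hy1
  have ha0 : 0 < y a := lt_of_le_of_ne (hy0 a) (Ne.symm ha)
  have hsum : (y a : ℂ) * (cf a.2 * χ a.1) + ∑ v ∈ Finset.univ.erase a,
      (y v : ℂ) * (cf v.2 * χ v.1) = 0 := by
    rw [← hzero]
    exact Finset.add_sum_erase _ (fun v => (y v : ℂ) * (cf v.2 * χ v.1)) (Finset.mem_univ a)
  by_cases hb : ∃ b, b ≠ a ∧ y b ≠ 0
  · obtain ⟨b, hba, hb⟩ := hb
    have hb0 : 0 < y b := lt_of_le_of_ne (hy0 b) (Ne.symm hb)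
    have hab2 : a.2 ≠ b.2 := fun h => hba (hy2 _ _ hb ha h.symm)
    have hrest : ∑ v ∈ Finset.univ.erase a, (y v : ℂ) * (cf v.2 * χ v.1) =
        (y b : ℂ) * (cf b.2 * χ b.1) := by
      refine Finset.sum_eq_single b ?_ ?_
      · intro v hv hvb
        by_cases hyv : y v = 0
        · simp [hyv]
        · exfalso
          have hva : v ≠ a := (Finset.mem_erase.mp hv).1
          have h1 : v.2 ≠ a.2 := fun h => hva (hy2 _ _ hyv ha h)
          have h2 : v.2 ≠ b.2 := fun h => hvb (hy2 _ _ hyv hb h)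
          have h3 := Fin.val_ne_of_ne h1
          have h4 := Fin.val_ne_of_ne h2
          have h5 := Fin.val_ne_of_ne hab2
          have h6 := v.2.isLt
          have h7 := a.2.isLt
          have h8 := b.2.isLt
          omega
      · intro h
        exact absurd (Finset.mem_erase.mpr ⟨hba, Finset.mem_univ b⟩) h
    rw [hrest] at hsum
    have h1 : (y a : ℂ) * (cf a.2 * χ a.1) = -((y b : ℂ) * (cf b.2 * χ b.1)) := by
      linear_combination hsum
    have h2 : y a = y b := by
      have := congrArg norm h1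
      rw [norm_neg, norm_mul, norm_mul, norm_mul, norm_mul, hcfn, hcfn, hχn, hχn,
        Complex.norm_real, Complex.norm_real, Real.norm_of_nonneg (hy0 a),
        Real.norm_of_nonneg (hy0 b)] at this
      simpa using this
    have h3 : cf a.2 * χ a.1 = -(cf b.2 * χ b.1) := by
      rw [← h2] at h1
      have h4 : (y a : ℂ) ≠ 0 := by exact_mod_cast ha
      apply mul_left_cancel₀ h4
      rw [h1]
      ring
    have h4 : cf a.2 ^ (2 * m) = cf b.2 ^ (2 * m) := by
      have h5 : (cf a.2 * χ a.1) ^ (2 * m) = (-(cf b.2 * χ b.1)) ^ (2 * m) := by rw [h3]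
      rw [Even.neg_pow ⟨m, by ring⟩, mul_pow, mul_pow, pow_mul' (χ a.1), pow_mul' (χ b.1),
        hχ, hχ] at h5
      simpa using h5
    have h5 : ω ^ (2 * m) = 1 := by
      by_cases ha2 : a.2 = 0
      · have hb2 : ¬ b.2 = 0 := fun h => hab2 (ha2.trans h.symm)
        simp only [cf, if_pos ha2, if_neg hb2, one_pow] at h4
        exact h4.symm
      · have hb2 : b.2 = 0 := by
          by_contra hb2
          have h3 := Fin.val_ne_of_ne ha2
          have h4 := Fin.val_ne_of_ne hb2
          have h5 := Fin.val_ne_of_ne hab2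
          have h7 := a.2.isLt
          have h8 := b.2.isLt
          simp only [Fin.val_zero] at h3 h4
          omega
        simp only [cf, if_neg ha2, if_pos hb2, one_pow] at h4
        exact h4
    have h6 := hω.dvd_of_pow_eq_one _ h5
    have h7 := Nat.le_of_dvd (by omega) h6
    omega
  · push Not at hb
    have hrest : ∑ v ∈ Finset.univ.erase a, (y v : ℂ) * (cf v.2 * χ v.1) = 0 := by
      refine Finset.sum_eq_zero fun v hv => ?_
      rw [hb v (Finset.mem_erase.mp hv).1]
      simp
    rw [hrest, add_zero] at hsum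
    have := congrArg norm hsum
    rw [norm_mul, norm_mul, hcfn, hχn, Complex.norm_real, Real.norm_of_nonneg (hy0 a)] at this
    simp at this
    exact ha this

/-- A continuous equivariant map `|C| → E_k G` with `k ≤ 1` yields a continuous nonvanishing
function `z` with `z (c • x) = ζ * z x`, where `ζ ^ orderOf c = 1`. -/
lemma exists_z (C : FreeComplex G) (c : G) (ζ : ℂ) (hζ : ζ ^ orderOf c = 1) (k : ℕ) (hk : k ≤ 1)
    (f : C.Space →[G] (joinComplex G k).Space) (hf : Continuous f) :
    ∃ z : (C.V → ℝ) → ℂ, ContinuousOn z (realization C.K) ∧ (∀ x ∈ realization C.K, z x ≠ 0) ∧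
      ∀ x ∈ realization C.K, z (fun v => x (c⁻¹ • v)) = ζ * z x := by
  classical
  obtain ⟨χ, hχ1, hχ2⟩ := exists_chi c ζ hζ
  have hm : 0 < orderOf c := orderOf_pos c
  let ω : ℂ := Complex.exp (2 * Real.pi * Complex.I / (4 * orderOf c : ℕ))
  have hω : IsPrimitiveRoot ω (4 * orderOf c) :=
    Complex.isPrimitiveRoot_exp (4 * orderOf c) (by omega)
  let Z : (G × Fin (k + 1) → ℝ) → ℂ :=
    fun y => ∑ v, (y v : ℂ) * ((if v.2 = 0 then 1 else ω) * χ v.1)
  have hZcont : Continuous Z := by
    refine continuous_finsetSum _ fun v _ => ?_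
    have : Continuous fun y : G × Fin (k + 1) → ℝ => (y v : ℂ) :=
      Complex.continuous_ofReal.comp (continuous_apply v)
    exact this.mul continuous_const
  have hZeq : ∀ y : G × Fin (k + 1) → ℝ, Z (fun v => y (c⁻¹ * v.1, v.2)) = ζ * Z y := by
    intro y
    change ∑ v : G × Fin (k + 1), ((y (c⁻¹ * v.1, v.2) : ℝ) : ℂ) *
      ((if v.2 = 0 then 1 else ω) * χ v.1) = _
    rw [← Equiv.sum_comp (Equiv.prodCongr (Equiv.mulLeft c) (Equiv.refl (Fin (k + 1))))]
    change _ = ζ * ∑ v : G × Fin (k + 1), ((y v : ℝ) : ℂ) * ((if v.2 = 0 then 1 else ω) * χ v.1)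
    rw [Finset.mul_sum]
    refine Finset.sum_congr rfl fun v _ => ?_
    simp only [Equiv.prodCongr_apply, Equiv.coe_mulLeft, Equiv.coe_refl, Prod.map_fst,
      Prod.map_snd, id_eq, inv_mul_cancel_left, hχ1]
    ring
  have hZne : ∀ y ∈ realization (joinComplex G k).K, Z y ≠ 0 := by
    intro y hy
    obtain ⟨h0, h1, h2⟩ := join_props hy
    exact plane_ne_zero hk hm χ hχ2 ω hω y h0 h1 h2
  refine ⟨fun x => if h : x ∈ realization C.K then Z (f ⟨x, h⟩).1 else 1, ?_, ?_, ?_⟩
  · rw [continuousOn_iff_continuous_domRestrict]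
    have h0 : Continuous fun x : (joinComplex G k).Space => Z x.1 :=
      hZcont.comp (continuous_subtype_val (p := fun x => x ∈ realization (joinComplex G k).K))
    have h1 : Continuous fun x : C.Space => Z (f x).1 := h0.comp hf
    have h2 : (Set.domRestrict (realization C.K) fun x =>
        if h : x ∈ realization C.K then Z (f ⟨x, h⟩).1 else 1) =
        fun x : realization C.K => Z (f x).1 := by
      funext x
      simp only [Set.domRestrict_apply]
      rw [dif_pos x.2]
    rw [h2]
    exact h1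
  · intro x hx
    simp only [dif_pos hx]
    exact hZne _ (f ⟨x, hx⟩).2
  · intro x hx
    have hx' := smul_mem_realization C c hx
    simp only [dif_pos hx, dif_pos hx']
    have h1 : f ⟨fun v => x (c⁻¹ • v), hx'⟩ = c • f ⟨x, hx⟩ := f.map_smul c ⟨x, hx⟩
    rw [h1]
    exact hZeq _

end plane



/-! ### A lemma on cocycles on the discrete torus -/

section torus

variable {p : ℕ} [NeZero p]

/-- shift map on `(ZMod p)^p` modelling the action of the element of order `p ^ 2` -/
def sg (n : ZMod p → ZMod p) : ZMod p → ZMod p := fun j => n (j + 1) + if j + 1 = 0 then 1 else 0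

lemma sg_injective : Function.Injective (sg (p := p)) := by
  intro n n' h
  funext j
  have := congrFun h (j - 1)
  simpa [sg] using this

lemma sg_add_single (n : ZMod p → ZMod p) (j : ZMod p) :
    sg (n + Pi.single (j + 1) 1) = sg n + Pi.single j 1 := by
  funext i
  simp only [sg, Pi.add_apply, Pi.single_apply, add_left_inj]
  ring

lemma const_of_shift (P : (ZMod p → ZMod p) → ℂ) (h : ∀ k y, P (y + Pi.single k 1) = P y)
    (y : ZMod p → ZMod p) : P y = P 0 := by
  let H : AddSubgroup (ZMod p → ZMod p) :=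
    { carrier := {v | ∀ y, P (y + v) = P y}
      zero_mem' := fun y => by rw [add_zero]
      add_mem' := fun {a b} ha hb y => by rw [← add_assoc, hb, ha]
      neg_mem' := fun {a} ha y => by
        have := ha (y + -a)
        rw [neg_add_cancel_right] at this
        exact this.symm }
  have h1 : ∀ k (a : ZMod p), (Pi.single k a : ZMod p → ZMod p) ∈ H := by
    intro k a
    have h2 : (Pi.single k a : ZMod p → ZMod p) = a.val • (Pi.single k 1 : ZMod p → ZMod p) := by
      funext i
      rw [Pi.smul_apply, Pi.single_apply, Pi.single_apply]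
      split_ifs <;> simp
    rw [h2]
    exact H.nsmul_mem (fun y => h k y) _
  have h3 : y ∈ H := by
    rw [← Finset.univ_sum_single y]
    exact H.sum_mem fun k _ => h1 k _
  have := h3 0
  rwa [zero_add] at this

/-- The winding sum of a closed walk is the sum of the averages. -/
lemma closed_walk (D : ZMod p → (ZMod p → ZMod p) → ℂ)
    (hcl : ∀ j k n, D j n + D k (n + Pi.single j 1) = D k n + D j (n + Pi.single k 1))
    (m : ℕ) (j : ℕ → ZMod p) (s : ℕ → ZMod p → ZMod p) (hs0 : s 0 = 0) (hsm : s m = 0)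
    (hs : ∀ i, s (i + 1) = s i + Pi.single (j i) 1) :
    (Fintype.card (ZMod p → ZMod p) : ℂ) * ∑ i ∈ Finset.range m, D (j i) (s i) =
      ∑ i ∈ Finset.range m, ∑ y, D (j i) y := by
  have h1 : ∀ y, ∑ i ∈ Finset.range m, D (j i) (y + s i) =
      ∑ i ∈ Finset.range m, D (j i) (0 + s i) := by
    refine const_of_shift (fun y => ∑ i ∈ Finset.range m, D (j i) (y + s i)) ?_
    intro k y
    have h2 : ∀ i, D (j i) (y + Pi.single k 1 + s i) - D (j i) (y + s i) =
        D k (y + s (i + 1)) - D k (y + s i) := by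
      intro i
      have h3 := hcl (j i) k (y + s i)
      rw [hs, ← add_assoc, add_right_comm y]
      linear_combination -h3
    have h4 : ∑ i ∈ Finset.range m, D (j i) (y + Pi.single k 1 + s i) -
        ∑ i ∈ Finset.range m, D (j i) (y + s i) = 0 := by
      rw [← Finset.sum_sub_distrib, Finset.sum_congr rfl fun i _ => h2 i,
        Finset.sum_range_sub (fun i => D k (y + s i)), hsm, hs0, sub_self]
    linear_combination h4
  have h5 : ∀ i, ∑ y, D (j i) (y + s i) = ∑ y, D (j i) y := fun i =>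
    Equiv.sum_comp (Equiv.addRight (s i)) (fun y => D (j i) y)
  rw [← Finset.sum_congr rfl fun i _ => h5 i, Finset.sum_comm,
    Finset.sum_congr rfl fun y _ => h1 y, Finset.sum_const, Finset.card_univ, nsmul_eq_mul]
  simp only [zero_add]

lemma torus_lemma (D : ZMod p → (ZMod p → ZMod p) → ℂ)
    (hcl : ∀ j k n, D j n + D k (n + Pi.single j 1) = D k n + D j (n + Pi.single k 1))
    (hsg : ∀ j n, D j (sg n) = D (j + 1) n) :
    ∑ i ∈ Finset.range p, D (-1) ((i : ZMod p) • Pi.single (-1) 1) = p * D (-1) 0 := by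
  have hp : (p : ℂ) ≠ 0 := by exact_mod_cast NeZero.ne p
  have hN : (Fintype.card (ZMod p → ZMod p) : ℂ) ≠ 0 := by
    exact_mod_cast Fintype.card_ne_zero
  set N := (Fintype.card (ZMod p → ZMod p) : ℂ) with hNdef
  -- all the sums over `y` agree
  have hS1 : ∀ j, ∑ y, D (j + 1) y = ∑ y, D j y := by
    intro j
    rw [← (Finite.injective_iff_bijective.mp sg_injective).sum_comp (fun y => D j y)]
    exact Finset.sum_congr rfl fun y _ => (hsg j y).symm
  have hS : ∀ i : ℕ, ∑ y, D (-1 - (i : ZMod p)) y = ∑ y, D (-1) y := by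
    intro i
    induction i with
    | zero => simp
    | succ i ih =>
      rw [← ih, ← hS1 (-1 - ((i + 1 : ℕ) : ZMod p))]
      congr 1
      funext y
      congr 1
      push_cast
      ring
  -- first walk
  have hsg0 : sg (0 : ZMod p → ZMod p) = Pi.single (-1) 1 := by
    funext j
    simp only [sg, Pi.zero_apply, zero_add, Pi.single_apply, eq_neg_iff_add_eq_zero]
  have hsgi : ∀ (i : ℕ) (n : ZMod p → ZMod p) (j : ZMod p),
      sg^[i] (n + Pi.single (j + i) 1) = sg^[i] n + Pi.single j 1 := by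
    intro i
    induction i with
    | zero => intro n j; simp
    | succ i ih =>
      intro n j
      rw [Function.iterate_succ_apply, Function.iterate_succ_apply]
      have : j + ((i + 1 : ℕ) : ZMod p) = (j + i) + 1 := by push_cast; ring
      rw [this, sg_add_single, ih]
  have hDi : ∀ (i : ℕ) (j : ZMod p) (n : ZMod p → ZMod p), D j (sg^[i] n) = D (j + i) n := by
    intro i
    induction i with
    | zero => intro j n; simp
    | succ i ih =>
      intro j n
      rw [Function.iterate_succ_apply, ih, hsg]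
      congr 1
      push_cast
      ring
  have hstep : ∀ i : ℕ, sg^[i + 1] (0 : ZMod p → ZMod p) =
      sg^[i] 0 + Pi.single (-1 - (i : ZMod p)) 1 := by
    intro i
    rw [Function.iterate_succ_apply, hsg0]
    have := hsgi i 0 (-1 - (i : ZMod p))
    rw [zero_add, sub_add_cancel] at this
    exact this
  have hsum : ∀ m : ℕ, sg^[m] (0 : ZMod p → ZMod p) =
      ∑ i ∈ Finset.range m, Pi.single (-1 - (i : ZMod p)) 1 := by
    intro m
    induction m with
    | zero => simp
    | succ m ih => rw [hstep, Finset.sum_range_succ, ih]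
  have hper : ∀ k : ℕ, sg^[p * k] (0 : ZMod p → ZMod p) = fun _ => (k : ZMod p) := by
    intro k
    induction k with
    | zero => funext j; simp
    | succ k ih =>
      rw [hsum, Nat.mul_succ, Finset.sum_range_add, ← hsum, ih]
      have h1 : ∑ x ∈ Finset.range p, (Pi.single (-1 - ((p * k + x : ℕ) : ZMod p)) 1 :
          ZMod p → ZMod p) = fun _ => 1 := by
        funext j
        rw [Finset.sum_apply]
        have h2 : ∀ x ∈ Finset.range p, (Pi.single (-1 - ((p * k + x : ℕ) : ZMod p)) 1 :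
            ZMod p → ZMod p) j = if x = (-1 - j).val then 1 else 0 := by
          intro x hx
          rw [Pi.single_apply]
          have h3 : ((p * k + x : ℕ) : ZMod p) = (x : ZMod p) := by simp
          rw [h3]
          congr 1
          rw [eq_iff_iff]
          constructor
          · intro h
            have h4 : (-1 - j : ZMod p) = (x : ZMod p) := by rw [h]; ring
            rw [h4, ZMod.val_cast_of_lt (Finset.mem_range.mp hx)]
          · intro h
            have h4 : (x : ZMod p) = -1 - j := by rw [h, ZMod.natCast_zmod_val]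
            rw [h4]; ring
        rw [Finset.sum_congr rfl h2, Finset.sum_ite_eq', if_pos]
        exact Finset.mem_range.mpr (ZMod.val_lt _)
      rw [h1]
      funext j
      simp
  have hW1 := closed_walk D hcl (p * p) (fun i => -1 - (i : ZMod p)) (fun i => sg^[i] 0) rfl
    (by rw [hper]; funext j; simp) hstep
  have h6 : ∀ i : ℕ, D (-1 - (i : ZMod p)) (sg^[i] 0) = D (-1) 0 := by
    intro i
    rw [hDi, sub_add_cancel]
  rw [Finset.sum_congr rfl fun i _ => h6 i, Finset.sum_congr rfl fun i _ => hS i,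
    Finset.sum_const, Finset.sum_const, Finset.card_range, nsmul_eq_mul, nsmul_eq_mul] at hW1
  push_cast at hW1
  have h7 : N * D (-1) 0 = ∑ y, D (-1) y := by
    have : ((p : ℂ) * p) * (N * D (-1) 0 - ∑ y, D (-1) y) = 0 := by linear_combination hW1
    rcases mul_eq_zero.mp this with h | h
    · exact absurd h (mul_ne_zero hp hp)
    · linear_combination h
  -- second walk
  have hW2 := closed_walk D hcl p (fun _ => -1) (fun i => (i : ZMod p) • Pi.single (-1) 1)
    (by simp) (by simp) (fun i => by push_cast; rw [add_smul, one_smul])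
  rw [Finset.sum_const, Finset.card_range, nsmul_eq_mul] at hW2
  rw [← h7] at hW2
  apply mul_left_cancel₀ hN
  rw [hW2]
  ring

end torus



/-! ### Complexes given by a compatibility relation on the vertices -/

/-- nonempty sets of at most three pairwise compatible vertices -/
def flag3 {V : Type} (r : V → V → Prop) (hr : ∀ v, r v v) : AbstractSimplicialComplex V where
  faces := {s | s.Nonempty ∧ s.card ≤ 3 ∧ ∀ v ∈ s, ∀ w ∈ s, r v w}
  isRelLowerSet_faces := fun s hs =>
    ⟨hs.1, fun t hts ht => ⟨ht, (Finset.card_le_card hts).trans hs.2.1,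
      fun v hv w hw => hs.2.2 v (hts hv) w (hts hw)⟩⟩
  singleton_mem := fun v => ⟨Finset.singleton_nonempty v, by simp, by
    intro a ha b hb
    rw [Finset.mem_singleton] at ha hb
    rw [ha, hb]
    exact hr v⟩

section general

variable {G : Type} [Group G] [Fintype G]

/-- a free complex from a compatibility relation -/
def mk3 (V : Type) [Fintype V] [MulAction G V] (r : V → V → Prop) (hr : ∀ v, r v v)
    (hinv : ∀ (g : G) v w, r v w → r (g • v) (g • w))
    (hfree : ∀ g : G, g ≠ 1 → ∃ k : ℕ, ∀ v, ¬ r v (g ^ k • v)) : FreeComplex G where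
  V := V
  K := flag3 r hr
  map_mem := by
    rintro g s ⟨hs, hs3, hs'⟩
    refine ⟨by simpa using hs, by simpa using hs3, ?_⟩
    intro v hv w hw
    rw [Finset.mem_map] at hv hw
    obtain ⟨v', hv', rfl⟩ := hv
    obtain ⟨w', hw', rfl⟩ := hw
    exact hinv g v' w' (hs' v' hv' w' hw')
  free := by
    intro g x hx hgx
    by_contra hg
    obtain ⟨k, hk⟩ := hfree g hg
    have h1 : ∀ i : ℕ, ∀ v, x ((g ^ i)⁻¹ • v) = x v := by
      intro i
      induction i with
      | zero => intro v; simp
      | succ i ih =>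
        intro v
        rw [pow_succ', mul_inv_rev, mul_smul, ih]
        exact congrFun hgx v
    obtain ⟨v, hv⟩ := exists_ne_zero hx
    obtain ⟨_, _, s, ⟨_, _, hs⟩, hsx⟩ := hx
    have h2 := hk ((g ^ k)⁻¹ • v)
    rw [smul_inv_smul] at h2
    exact h2 (hs _ (hsx _ (by rw [h1]; exact hv)) _ (hsx _ hv))

lemma mk3_ind_le (V : Type) [Fintype V] [MulAction G V] (r : V → V → Prop) (hr : ∀ v, r v v)
    (hinv : ∀ (g : G) v w, r v w → r (g • v) (g • w))
    (hfree : ∀ g : G, g ≠ 1 → ∃ k : ℕ, ∀ v, ¬ r v (g ^ k • v)) :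
    ind G (mk3 V r hr hinv hfree).Space ≤ 2 := by
  obtain ⟨f, hf⟩ := exists_map_of_card_le (mk3 V r hr hinv hfree) 2 (fun s hs => hs.2.1)
  exact sInf_le ⟨2, rfl, f, hf⟩

lemma flag3_mem2 {V : Type} [DecidableEq V] (r : V → V → Prop) (hr : ∀ v, r v v) (u v : V)
    (h1 : r u v) (h2 : r v u) : {u, v} ∈ (flag3 r hr).faces := by
  refine ⟨by simp, (Finset.card_le_two).trans (by norm_num), ?_⟩
  intro a ha b hb
  simp only [Finset.mem_insert, Finset.mem_singleton] at ha hb
  rcases ha with rfl | rfl <;> rcases hb with rfl | rfl <;> first | exact hr _ | assumption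

lemma flag3_mem3 {V : Type} [DecidableEq V] (r : V → V → Prop) (hr : ∀ v, r v v) (u v w : V)
    (h1 : r u v) (h2 : r v u) (h3 : r u w) (h4 : r w u) (h5 : r v w) (h6 : r w v) :
    {u, v, w} ∈ (flag3 r hr).faces := by
  refine ⟨by simp, Finset.card_le_three, ?_⟩
  intro a ha b hb
  simp only [Finset.mem_insert, Finset.mem_singleton] at ha hb
  rcases ha with rfl | rfl | rfl <;> rcases hb with rfl | rfl | rfl <;>
    first | exact hr _ | assumption

lemma pt_smul (C : FreeComplex G) [DecidableEq C.V] (g : G) (u : C.V) :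
    pt (g • u) = fun v => pt u (g⁻¹ • v) := by
  funext v
  unfold pt
  have : (v = g • u) ↔ (g⁻¹ • v = u) := by rw [inv_smul_eq_iff]
  simp only [this]

/-- lower bound for the index -/
lemma two_le_ind (C : FreeComplex G)
    (h : ∀ k ≤ 1, ∀ f : C.Space →[G] (joinComplex G k).Space, ¬ Continuous f) :
    2 ≤ ind G C.Space := by
  refine le_sInf ?_
  rintro n ⟨k, rfl, f, hf⟩
  by_contra hcon
  have hk : k ≤ 1 := by
    have : (k : ℕ∞) < 2 := not_le.mp hcon
    have h2 : k < 2 := by exact_mod_cast this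
    omega
  exact h k hk f hf

end general

/-! ### The first complex -/

section first

variable {G : Type} [Group G] [Fintype G] (z : G)

/-- compatibility: at most one vertex per copy, all in the same left coset of `⟨z⟩` -/
def relX (v w : (joinComplex G 2).V) : Prop :=
  (v.2 = w.2 → v = w) ∧ v.1⁻¹ * w.1 ∈ Subgroup.zpowers z

lemma relX_refl (v : (joinComplex G 2).V) : relX z v v :=
  ⟨fun _ => rfl, by rw [inv_mul_cancel]; exact one_mem _⟩

/-- the first complex `G ×_P E_2 P` with `P = ⟨z⟩` -/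
def complexX : FreeComplex G :=
  mk3 (joinComplex G 2).V (relX z) (relX_refl z)
    (by
      rintro g v w ⟨h1, h2⟩
      refine ⟨fun h => ?_, ?_⟩
      · rw [h1 h]
      · rw [join_smul, join_smul]
        simpa [mul_assoc] using h2)
    (by
      intro g hg
      refine ⟨1, fun v hv => hg ?_⟩
      have h1 := hv.1 rfl
      have h2 : v.1 = g ^ 1 * v.1 := congrArg Prod.fst h1
      simpa using h2)

lemma complexX_ind_le : ind G (complexX z).Space ≤ 2 := mk3_ind_le _ _ _ _ _

/-- vertices used -/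
def vx (i : ℕ) (j : Fin 3) : (complexX z).V := ((z ^ i, j) : G × Fin 3)

lemma vx_rel (i i' : ℕ) (j j' : Fin 3) (h : j ≠ j') : relX z (vx z i j) (vx z i' j') := by
  refine ⟨fun h' => absurd h' h, ?_⟩
  change (z ^ i)⁻¹ * z ^ i' ∈ _
  exact mul_mem (inv_mem (pow_mem (Subgroup.mem_zpowers z) _)) (pow_mem (Subgroup.mem_zpowers z) _)

lemma vx_mem2 [DecidableEq (complexX z).V] (i i' : ℕ) (j j' : Fin 3) (h : j ≠ j') :
    {vx z i j, vx z i' j'} ∈ (complexX z).K.faces :=
  flag3_mem2 (V := (complexX z).V) (relX z) (relX_refl z) _ _ (vx_rel z _ _ _ _ h)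
    (vx_rel z _ _ _ _ h.symm)

lemma vx_mem3 [DecidableEq (complexX z).V] (i i' i'' : ℕ) (j j' j'' : Fin 3) (h1 : j ≠ j')
    (h2 : j ≠ j'') (h3 : j' ≠ j'') :
    {vx z i j, vx z i' j', vx z i'' j''} ∈ (complexX z).K.faces :=
  flag3_mem3 (V := (complexX z).V) (relX z) (relX_refl z) _ _ _
      (vx_rel z _ _ _ _ h1) (vx_rel z _ _ _ _ h1.symm) (vx_rel z _ _ _ _ h2)
      (vx_rel z _ _ _ _ h2.symm) (vx_rel z _ _ _ _ h3) (vx_rel z _ _ _ _ h3.symm)

lemma vx_smul (i : ℕ) (j : Fin 3) : z • vx z i j = vx z (i + 1) j := by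
  change ((z * z ^ i, j) : G × Fin 3) = (z ^ (i + 1), j)
  rw [pow_succ']

lemma complexX_no_map (c : G) (p : ℕ) (hp : 1 < p) (hc : orderOf c = p ^ 2) (hz : c ^ p = z)
    (k : ℕ) (hk : k ≤ 1) (f : (complexX z).Space →[G] (joinComplex G k).Space) :
    ¬ Continuous f := by
  classical
  intro hf
  have hp0 : p ≠ 0 := by omega
  have hζ := Complex.isPrimitiveRoot_exp (p ^ 2) (pow_ne_zero 2 hp0)
  set ζ := Complex.exp (2 * Real.pi * Complex.I / (p ^ 2 : ℕ)) with hζdef
  obtain ⟨Z, hZc, hZ0, hZe⟩ := exists_z (complexX z) c ζ (by rw [hc]; exact hζ.pow_eq_one) k hk f hf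
  have hζ0 : ζ ≠ 0 := Complex.exp_ne_zero _
  -- equivariance under `z`
  have hZi : ∀ i : ℕ, ∀ x ∈ realization (complexX z).K,
      Z (fun v => x ((c ^ i)⁻¹ • v)) = ζ ^ i * Z x := by
    intro i
    induction i with
    | zero => intro x hx; simp
    | succ i ih =>
      intro x hx
      have h1 := smul_mem_realization (complexX z) (c ^ i) hx
      have h2 := hZe _ h1
      rw [ih x hx] at h2
      rw [pow_succ' ζ, mul_assoc, ← h2]
      congr 1
      funext v
      rw [smul_smul, ← mul_inv_rev, ← pow_succ']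
  have hZz : ∀ x ∈ realization (complexX z).K, Z (fun v => x (z⁻¹ • v)) = ζ ^ p * Z x := by
    intro x hx
    rw [← hz]
    exact hZi p x hx
  have hzord : z ^ p = 1 := by
    rw [← hz, ← pow_mul, ← sq, ← hc, pow_orderOf_eq_one]
  have hinvδ : ∀ i i' : ℕ, ∀ j j' : Fin 3, j ≠ j' →
      delta Z (vx z (i + 1) j) (vx z (i' + 1) j') = delta Z (vx z i j) (vx z i' j') := by
    intro i i' j j' h
    have h1 := delta_equivariant (complexX z).K Z hZc hZ0 (MulAction.toPerm z) (ζ ^ p)
      (pow_ne_zero _ hζ0) (fun x hx => hZz x hx) (vx z i j) (vx z i' j')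
      (vx_mem2 z _ _ _ _ h)
    rw [MulAction.toPerm_apply, MulAction.toPerm_apply, vx_smul, vx_smul] at h1
    exact h1
  have hcoc : ∀ i i' i'' : ℕ, ∀ j j' j'' : Fin 3, j ≠ j' → j ≠ j'' → j' ≠ j'' →
      delta Z (vx z i j) (vx z i' j') + delta Z (vx z i' j') (vx z i'' j'') =
        delta Z (vx z i j) (vx z i'' j'') := by
    intro i i' i'' j j' j'' h1 h2 h3
    exact delta_cocycle (complexX z).K Z hZc hZ0 _ _ _ (vx_mem3 z _ _ _ _ _ _ h1 h2 h3)
  set d := delta Z (vx z 0 0) (vx z 0 1) + delta Z (vx z 0 1) (vx z 1 0) with hd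
  have hdi : ∀ i : ℕ, delta Z (vx z i 0) (vx z i 1) + delta Z (vx z i 1) (vx z (i + 1) 0) = d := by
    intro i
    induction i with
    | zero => rfl
    | succ i ih =>
      rw [hinvδ _ _ _ _ (by decide), hinvδ _ _ _ _ (by decide)]
      exact ih
  have hdi' : ∀ i : ℕ, d = delta Z (vx z i 0) (vx z 0 2) - delta Z (vx z (i + 1) 0) (vx z 0 2) := by
    intro i
    rw [← hdi i]
    have h1 := hcoc i i 0 0 1 2 (by decide) (by decide) (by decide)
    have h2 := hcoc i (i + 1) 0 1 0 2 (by decide) (by decide) (by decide)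
    linear_combination h1 + h2
  have hpd : (p : ℂ) * d = 0 := by
    have h1 : ∑ i ∈ Finset.range p, d = ∑ i ∈ Finset.range p,
        (delta Z (vx z i 0) (vx z 0 2) - delta Z (vx z (i + 1) 0) (vx z 0 2)) :=
      Finset.sum_congr rfl fun i _ => hdi' i
    rw [Finset.sum_const, Finset.card_range, nsmul_eq_mul,
      Finset.sum_range_sub' (fun i => delta Z (vx z i 0) (vx z 0 2))] at h1
    rw [h1]
    have h2 : vx z p 0 = vx z 0 0 := by
      change ((z ^ p, 0) : G × Fin 3) = (z ^ 0, 0)
      rw [hzord, pow_zero]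
    rw [h2, sub_self]
  have hd0 : d = 0 := by
    rcases mul_eq_zero.mp hpd with h | h
    · exact absurd (by exact_mod_cast h) hp0
    · exact h
  -- but `exp d = ζ ^ p ≠ 1`
  have e1 := exp_delta (complexX z).K Z hZc hZ0 (vx z 0 0) (vx z 0 1)
    (vx_mem2 z _ _ _ _ (by decide))
  have e2 := exp_delta (complexX z).K Z hZc hZ0 (vx z 0 1) (vx z 1 0)
    (vx_mem2 z _ _ _ _ (by decide))
  have e3 : Z (pt (vx z 0 0)) * Complex.exp d = Z (pt (vx z 1 0)) := by
    rw [hd, Complex.exp_add, ← mul_assoc, e1, e2]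
  have e4 : Z (pt (vx z 1 0)) = ζ ^ p * Z (pt (vx z 0 0)) := by
    rw [← hZz _ (pt_mem _ _), ← pt_smul, vx_smul]
  rw [hd0, Complex.exp_zero, mul_one, e4] at e3
  have e5 : ζ ^ p = 1 := by
    have h1 := hZ0 _ (pt_mem (complexX z).K (vx z 0 0))
    have h2 : (ζ ^ p - 1) * Z (pt (vx z 0 0)) = 0 := by linear_combination -e3
    rcases mul_eq_zero.mp h2 with h | h
    · linear_combination h
    · exact absurd h h1
  have e6 := hζ.dvd_of_pow_eq_one _ e5
  have e7 := Nat.le_of_dvd (by omega) e6
  nlinarith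

end first



/-! ### The second complex -/

section second

variable {G : Type} [Group G] [Fintype G]

/-- the data we extract from a nice group: `c` has order `p ^ 2`, `z = c ^ p` is central and every
nontrivial element has a nontrivial power in `⟨z⟩` -/
structure Data (c z : G) (p : ℕ) : Prop where
  hp : 1 < p
  hc : orderOf c = p ^ 2
  hz : c ^ p = z
  central : ∀ g : G, z * g = g * z
  small : ∀ g : G, g ≠ 1 → ∃ k : ℕ, g ^ k ≠ 1 ∧ g ^ k ∈ Subgroup.zpowers z

lemma Data.ordz {c z : G} {p : ℕ} (h : Data c z p) : orderOf z = p := by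
  have hp := h.hp
  rw [← h.hz, orderOf_pow_of_dvd (by omega) (by rw [h.hc, sq]; exact dvd_mul_left p p), h.hc, sq,
    Nat.mul_div_cancel _ (by omega)]

variable (z : G) (p : ℕ)

/-- vertices of the second complex: maps `q : G → ZMod p × Fin 2` with
`q (z * g) = ((q g).1 + 1, (q g).2)` -/
@[ext] structure VY where
  val : G → ZMod p × Fin 2
  prop : ∀ g, val (z * g) = ((val g).1 + 1, (val g).2)

noncomputable instance [NeZero p] : Fintype (VY z p) := by
  classical
  have : Finite (VY z p) := Finite.of_injective (fun q : VY z p => q.val) fun q q' h => VY.ext h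
  exact Fintype.ofFinite _

instance : MulAction G (VY z p) where
  smul h q := ⟨fun g => q.val (g * h), fun g => by
    rw [mul_assoc, q.prop]⟩
  one_smul q := VY.ext (by
    funext g
    change q.val (g * 1) = q.val g
    rw [mul_one])
  mul_smul h h' q := VY.ext (by
    funext g
    change q.val (g * (h * h')) = q.val (g * h * h')
    rw [mul_assoc])

lemma VY_smul (h : G) (q : VY z p) (g : G) : (h • q).val g = q.val (g * h) := rfl

/-- compatibility -/
def relY (q q' : VY z p) : Prop := ∀ g, (q.val g).2 = (q'.val g).2 → q.val g = q'.val g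

lemma relY_refl (q : VY z p) : relY z p q q := fun _ _ => rfl

lemma VY_zpow (q : VY z p) (i : ℤ) (g : G) : q.val (z ^ i * g) = ((q.val g).1 + i, (q.val g).2) := by
  induction i using Int.induction_on with
  | zero => simp
  | succ i ih =>
    rw [add_comm, zpow_add, zpow_one, mul_assoc, q.prop, ih]
    push_cast
    refine Prod.ext ?_ rfl
    change (q.val g).1 + i + 1 = (q.val g).1 + (1 + i)
    ring
  | pred i ih =>
    have h1 := q.prop (z ^ (-(i : ℤ) - 1) * g)
    rw [← mul_assoc, ← zpow_one_add] at h1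
    have h2 : 1 + (-(i : ℤ) - 1) = -(i : ℤ) := by ring
    rw [h2, ih] at h1
    have h3 := congrArg Prod.fst h1
    have h4 := congrArg Prod.snd h1
    refine Prod.ext ?_ h4.symm
    change (q.val g).1 + ((-(i : ℤ) : ℤ) : ZMod p) = (q.val (z ^ (-(i : ℤ) - 1) * g)).1 + 1 at h3
    change (q.val (z ^ (-(i : ℤ) - 1) * g)).1 = (q.val g).1 + ((-(i : ℤ) - 1 : ℤ) : ZMod p)
    push_cast at h3 ⊢
    linear_combination -h3

lemma relY_free {c : G} [NeZero p] (hD : Data c z p) (g : G) (hg : g ≠ 1) :
    ∃ k : ℕ, ∀ q : VY z p, ¬ relY z p q (g ^ k • q) := by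
  obtain ⟨k, hk1, hk2⟩ := hD.small g hg
  obtain ⟨i, hi⟩ := Subgroup.mem_zpowers_iff.mp hk2
  refine ⟨k, fun q hq => hk1 ?_⟩
  have h1 := hq 1
  rw [VY_smul, one_mul, ← hi] at h1
  have h2 := VY_zpow z p q i 1
  rw [mul_one] at h2
  rw [h2] at h1
  have h3 := congrArg Prod.fst (h1 rfl)
  simp only at h3
  have h4 : (i : ZMod p) = 0 := by linear_combination -h3
  have h5 : (p : ℤ) ∣ i := (ZMod.intCast_zmod_eq_zero_iff_dvd i p).mp h4
  rw [← hi]
  exact orderOf_dvd_iff_zpow_eq_one.mp (by rw [hD.ordz]; exact h5)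

/-- the second complex: the `2`-skeleton of the coinduced complex -/
noncomputable def complexY {c : G} [NeZero p] (hD : Data c z p) : FreeComplex G :=
  mk3 (VY z p) (relY z p) (relY_refl z p)
    (fun g _ _ h x hx => h (x * g) hx) (relY_free z p hD)

/-- the integer part -/
def fl (x : ZMod (p ^ 2)) : ZMod p := ((x.val / p : ℕ) : ZMod p)

lemma natCast_div_add (t : ℕ) (h : p ≠ 0) : (((t + p ^ 2) / p : ℕ) : ZMod p) = ((t / p : ℕ) : ZMod p) := by
  rw [sq, Nat.add_mul_div_right _ _ (Nat.pos_of_ne_zero h)]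
  push_cast
  simp

lemma natCast_div_mod (t : ℕ) (h : p ≠ 0) :
    (((t % p ^ 2) / p : ℕ) : ZMod p) = ((t / p : ℕ) : ZMod p) := by
  conv_rhs => rw [← Nat.mod_add_div t (p ^ 2)]
  generalize t / p ^ 2 = k
  generalize t % p ^ 2 = r
  induction k with
  | zero => simp
  | succ k ih => rw [Nat.mul_succ, ← add_assoc, natCast_div_add p _ h, ← ih]

lemma fl_succ [NeZero p] (x : ZMod (p ^ 2)) :
    fl p (x + 1) = fl p x + if (ZMod.castHom (dvd_pow_self p two_ne_zero) (ZMod p) x) + 1 = 0
      then 1 else 0 := by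
  have hp : p ≠ 0 := NeZero.ne p
  have : NeZero (p ^ 2) := ⟨pow_ne_zero 2 hp⟩
  unfold fl
  rw [ZMod.val_add, ZMod.val_one_eq_one_mod, Nat.add_mod_mod, natCast_div_mod p _ hp, Nat.succ_div]
  have h1 : (ZMod.castHom (dvd_pow_self p two_ne_zero) (ZMod p) x) + 1 = 0 ↔ p ∣ x.val + 1 := by
    rw [ZMod.castHom_apply, ZMod.cast_eq_val, ← ZMod.natCast_eq_zero_iff]
    push_cast
    rfl
  by_cases h : p ∣ x.val + 1
  · rw [if_pos h, if_pos (h1.mpr h)]
    push_cast
    rfl
  · rw [if_neg h, if_neg (fun h' => h (h1.mp h'))]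
    simp

lemma fl_add_p [NeZero p] (x : ZMod (p ^ 2)) : fl p (x + ((p : ℕ) : ZMod (p ^ 2))) = fl p x + 1 := by
  have hp : p ≠ 0 := NeZero.ne p
  have : NeZero (p ^ 2) := ⟨pow_ne_zero 2 hp⟩
  unfold fl
  rw [ZMod.val_add, ZMod.val_natCast, Nat.add_mod_mod, natCast_div_mod p _ hp,
    Nat.add_div_right _ (Nat.pos_of_ne_zero hp)]
  push_cast
  rfl

/-- a coordinate on `G` that is shifted by `1` under right multiplication by `c` -/
lemma exists_right_coord (c : G) :
    ∃ l : G → ZMod (orderOf c), ∀ g, l (g * c) = l g + 1 := by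
  obtain ⟨κ, hκ⟩ := exists_coord c
  refine ⟨fun g => -κ g⁻¹, fun g => ?_⟩
  have h1 := hκ (c⁻¹ * g⁻¹)
  rw [mul_inv_cancel_left] at h1
  simp only [mul_inv_rev]
  rw [h1]
  ring

variable {z p}

/-- lattice vertices -/
def qq [NeZero p] (l : G → ZMod (p ^ 2)) (hl : ∀ g, l (z * g) = l g + ((p : ℕ) : ZMod (p ^ 2)))
    (n : ZMod p → ZMod p) (S : ZMod p → Fin 2) : VY z p where
  val g := (n (ZMod.castHom (dvd_pow_self p two_ne_zero) (ZMod p) (l g)) + fl p (l g),
    S (ZMod.castHom (dvd_pow_self p two_ne_zero) (ZMod p) (l g)))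
  prop g := by
    rw [hl, fl_add_p, map_add]
    have : (ZMod.castHom (dvd_pow_self p two_ne_zero) (ZMod p)) ((p : ℕ) : ZMod (p ^ 2)) = 0 := by
      rw [map_natCast, ZMod.natCast_self]
    rw [this, add_zero]
    refine Prod.ext ?_ rfl
    change _ + (_ + 1) = _ + _ + 1
    ring

lemma relY_qq [NeZero p] (l : G → ZMod (p ^ 2))
    (hl : ∀ g, l (z * g) = l g + ((p : ℕ) : ZMod (p ^ 2)))
    (n n' : ZMod p → ZMod p) (S S' : ZMod p → Fin 2) (h : ∀ j, S j = S' j → n j = n' j) :
    relY z p (qq l hl n S) (qq l hl n' S') := by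
  intro g hg
  refine Prod.ext ?_ hg
  change n _ + _ = n' _ + _
  rw [h _ hg]

lemma relY_symm {q q' : VY z p} (h : relY z p q q') : relY z p q' q :=
  fun g hg => (h g hg.symm).symm

lemma smul_qq [NeZero p] (c : G) (l : G → ZMod (p ^ 2))
    (hl : ∀ g, l (z * g) = l g + ((p : ℕ) : ZMod (p ^ 2))) (hlc : ∀ g, l (g * c) = l g + 1)
    (n : ZMod p → ZMod p) (S : ZMod p → Fin 2) :
    c • qq l hl n S = qq l hl (sg n) (fun j => S (j + 1)) := by
  refine VY.ext ?_
  funext g
  change (n (ZMod.castHom (dvd_pow_self p two_ne_zero) (ZMod p) (l (g * c))) + fl p (l (g * c)),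
    S (ZMod.castHom (dvd_pow_self p two_ne_zero) (ZMod p) (l (g * c)))) =
    (sg n (ZMod.castHom (dvd_pow_self p two_ne_zero) (ZMod p) (l g)) + fl p (l g),
    S (ZMod.castHom (dvd_pow_self p two_ne_zero) (ZMod p) (l g) + 1))
  rw [hlc, map_add, map_one, fl_succ]
  refine Prod.ext ?_ rfl
  simp only [sg]
  ring

lemma complexY_no_map {c : G} [NeZero p] (hD : Data c z p)
    (k : ℕ) (hk : k ≤ 1) (f : (complexY z p hD).Space →[G] (joinComplex G k).Space) :
    ¬ Continuous f := by
  classical
  intro hf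
  have hp := hD.hp
  have hc := hD.hc
  have hp0 : p ≠ 0 := by omega
  have hζ := Complex.isPrimitiveRoot_exp (p ^ 2) (pow_ne_zero 2 hp0)
  set ζ := Complex.exp (2 * Real.pi * Complex.I / (p ^ 2 : ℕ)) with hζdef
  obtain ⟨Z, hZc, hZ0, hZe⟩ :=
    exists_z (complexY z p hD) c ζ (by rw [hc]; exact hζ.pow_eq_one) k hk f hf
  have hζ0 : ζ ≠ 0 := Complex.exp_ne_zero _
  -- the coordinate
  have hex := exists_right_coord c
  rw [hc] at hex
  obtain ⟨l, hlc⟩ := hex
  have hlci : ∀ (i : ℕ) (g : G), l (g * c ^ i) = l g + (i : ZMod (p ^ 2)) := by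
    intro i
    induction i with
    | zero => intro g; simp
    | succ i ih =>
      intro g
      have e : g * c ^ (i + 1) = g * c ^ i * c := by rw [pow_succ, mul_assoc]
      rw [e, hlc, ih]
      push_cast
      ring
  have hl : ∀ g, l (z * g) = l g + ((p : ℕ) : ZMod (p ^ 2)) := by
    intro g
    rw [hD.central, ← hD.hz, hlci]
  -- cocycle relations
  have hrefl : ∀ u : VY z p, relY z p u u := relY_refl z p
  have hmem2 : ∀ u v : VY z p, relY z p u v → {u, v} ∈ (complexY z p hD).K.faces :=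
    fun u v h => flag3_mem2 (relY z p) (relY_refl z p) u v h (relY_symm h)
  have hmem3 : ∀ u v w : VY z p, relY z p u v → relY z p u w → relY z p v w →
      {u, v, w} ∈ (complexY z p hD).K.faces :=
    fun u v w h1 h2 h3 => flag3_mem3 (relY z p) (relY_refl z p) u v w h1 (relY_symm h1) h2
      (relY_symm h2) h3 (relY_symm h3)
  let δ : VY z p → VY z p → ℂ := fun u v => delta (V := (complexY z p hD).V) Z u v
  have hδc : ∀ u v w : VY z p, relY z p u v → relY z p u w → relY z p v w →
      δ u v + δ v w = δ u w := fun u v w h1 h2 h3 =>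
    delta_cocycle (complexY z p hD).K Z hZc hZ0 u v w (hmem3 u v w h1 h2 h3)
  have hδe : ∀ u v : VY z p, relY z p u v →
      Z (pt (V := (complexY z p hD).V) u) * Complex.exp (δ u v) =
        Z (pt (V := (complexY z p hD).V) v) := fun u v h1 =>
    exp_delta (complexY z p hD).K Z hZc hZ0 u v (hmem2 u v h1)
  have hδi : ∀ u v : VY z p, relY z p u v → δ (c • u) (c • v) = δ u v := fun u v h1 =>
    delta_equivariant (complexY z p hD).K Z hZc hZ0 (MulAction.toPerm c) ζ hζ0
      (fun x hx => hZe x hx) u v (hmem2 u v h1)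
  -- the discrete cocycle
  let Q : (ZMod p → ZMod p) → (ZMod p → Fin 2) → VY z p := fun n S => qq l hl n S
  have hQ : ∀ n n' S S', (∀ j, S j = S' j → n j = n' j) → relY z p (Q n S) (Q n' S') :=
    fun n n' S S' h => relY_qq l hl n n' S S' h
  let s : ZMod p → ZMod p → Fin 2 := fun j => Pi.single j 1
  let D : ZMod p → (ZMod p → ZMod p) → ℂ := fun j n =>
    δ (Q n 0) (Q n (s j)) + δ (Q n (s j)) (Q (n + Pi.single j 1) 0)
  have r1 : ∀ n S S', relY z p (Q n S) (Q n S') := fun n S S' => hQ _ _ _ _ fun _ _ => rfl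
  have r2 : ∀ j n, relY z p (Q n (s j)) (Q (n + Pi.single j 1) 0) := by
    intro j n
    refine hQ _ _ _ _ fun i hi => ?_
    by_cases hij : i = j
    · subst hij
      simp [s] at hi
    · simp [Pi.single_eq_of_ne hij]
  have hhalf : ∀ j k n, j ≠ k → D j n + D k (n + Pi.single j 1) =
      δ (Q n 0) (Q n (s j + s k)) -
        δ (Q (n + Pi.single j 1 + Pi.single k 1) 0) (Q n (s j + s k)) := by
    intro j k n hjk
    have r3 : relY z p (Q (n + Pi.single j 1) 0) (Q n (s j + s k)) := by
      refine hQ _ _ _ _ fun i hi => ?_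
      by_cases hij : i = j
      · subst hij
        simp [s, Pi.single_eq_of_ne hjk] at hi
      · simp [Pi.single_eq_of_ne hij]
    have r4 : relY z p (Q (n + Pi.single j 1) (s k)) (Q n (s j + s k)) := by
      refine hQ _ _ _ _ fun i hi => ?_
      by_cases hij : i = j
      · subst hij
        simp [s, Pi.single_eq_of_ne hjk] at hi
      · simp [Pi.single_eq_of_ne hij]
    have r5 : relY z p (Q (n + Pi.single j 1 + Pi.single k 1) 0) (Q n (s j + s k)) := by
      refine hQ _ _ _ _ fun i hi => ?_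
      by_cases hij : i = j
      · subst hij
        simp [s, Pi.single_eq_of_ne hjk] at hi
      · by_cases hik : i = k
        · subst hik
          simp [s, Pi.single_eq_of_ne hij] at hi
        · simp [Pi.single_eq_of_ne hij, Pi.single_eq_of_ne hik]
    have c1 := hδc _ _ _ (r1 n 0 (s j)) (r1 n 0 (s j + s k)) (r1 n (s j) (s j + s k))
    have c2 := hδc _ _ _ (r2 j n) (r1 n (s j) (s j + s k)) r3
    have c3 := hδc _ _ _ (r1 (n + Pi.single j 1) 0 (s k)) r3 r4
    have c4 := hδc _ _ _ (r2 k (n + Pi.single j 1)) r4 r5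
    simp only [D]
    linear_combination c1 + c2 + c3 + c4
  have hcl : ∀ j k n, D j n + D k (n + Pi.single j 1) = D k n + D j (n + Pi.single k 1) := by
    intro j k n
    by_cases hjk : j = k
    · subst hjk
      rfl
    · rw [hhalf j k n hjk, hhalf k j n (Ne.symm hjk), add_comm (s j) (s k), add_right_comm n]
  have hsm : ∀ n S, c • Q n S = Q (sg n) (fun j => S (j + 1)) := fun n S =>
    smul_qq c l hl hlc n S
  have hs1 : ∀ j, (fun i => s (j + 1) (i + 1)) = s j := by
    intro j
    funext i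
    simp [s, Pi.single_apply]
  have hsg : ∀ j n, D j (sg n) = D (j + 1) n := by
    intro j n
    have e1 := hδi _ _ (r1 n 0 (s (j + 1)))
    have e2 := hδi _ _ (r2 (j + 1) n)
    rw [hsm, hsm, hs1] at e1 e2
    rw [sg_add_single] at e2
    simp only [D]
    rw [← e1, ← e2]
    rfl
  have hexp : ∀ j n, Z (pt (V := (complexY z p hD).V) (Q n 0)) * Complex.exp (D j n) =
      Z (pt (V := (complexY z p hD).V) (Q (n + Pi.single j 1) 0)) := by
    intro j n
    simp only [D]
    rw [Complex.exp_add, ← mul_assoc, hδe _ _ (r1 n 0 (s j)), hδe _ _ (r2 j n)]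
  have hT := torus_lemma D hcl hsg
  have hZne : ∀ u : VY z p, Z (pt (V := (complexY z p hD).V) u) ≠ 0 := fun u =>
    hZ0 _ (pt_mem (complexY z p hD).K u)
  -- closed loop
  have hloop : ∀ m : ℕ, Z (pt (V := (complexY z p hD).V) (Q 0 0)) *
      Complex.exp (∑ i ∈ Finset.range m, D (-1) ((i : ZMod p) • Pi.single (-1) 1)) =
      Z (pt (V := (complexY z p hD).V) (Q ((m : ZMod p) • Pi.single (-1) 1) 0)) := by
    intro m
    induction m with
    | zero => simp
    | succ m ih =>
      rw [Finset.sum_range_succ, Complex.exp_add, ← mul_assoc, ih, hexp]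
      push_cast
      rw [add_smul, one_smul]
  have h1 := hloop p
  rw [ZMod.natCast_self, zero_smul, hT] at h1
  have h2 : Complex.exp (p * D (-1) 0) = 1 := by
    have h3 : Z (pt (V := (complexY z p hD).V) (Q 0 0)) * (Complex.exp (p * D (-1) 0) - 1) = 0 := by
      linear_combination h1
    rcases mul_eq_zero.mp h3 with h | h
    · exact absurd h (hZne _)
    · linear_combination h
  have h4 : Complex.exp (D (-1) 0) = ζ := by
    have e1 := hexp (-1) 0
    have e2 : c • Q 0 0 = Q (0 + Pi.single (-1) 1) 0 := by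
      rw [hsm]
      congr 1
      funext j
      simp [sg, Pi.single_apply, eq_neg_iff_add_eq_zero]
    rw [← e2] at e1
    have e3 : Z (pt (V := (complexY z p hD).V) (c • Q 0 0)) =
        ζ * Z (pt (V := (complexY z p hD).V) (Q 0 0)) := by
      rw [← hZe _ (pt_mem (complexY z p hD).K (Q 0 0))]
      congr 1
      exact pt_smul (complexY z p hD) c (Q 0 0)
    rw [e3] at e1
    have h3 : Z (pt (V := (complexY z p hD).V) (Q 0 0)) * (Complex.exp (D (-1) 0) - ζ) = 0 := by
      linear_combination e1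
    rcases mul_eq_zero.mp h3 with h | h
    · exact absurd h (hZne _)
    · linear_combination h
  rw [Complex.exp_nat_mul, h4] at h2
  have e6 := hζ.dvd_of_pow_eq_one _ h2
  have e7 := Nat.le_of_dvd (by omega) e6
  nlinarith

end second



section final

variable {G : Type} [Group G] [Fintype G] {z : G} {p : ℕ}

/-- power of `z` with exponent in `ZMod p` -/
def zp (z : G) (p : ℕ) (x : ZMod p) : G := z ^ x.val

lemma zp_intCast [NeZero p] {c : G} (hD : Data c z p) (x : ZMod p) (i : ℤ) :
    zp z p (x + i) = z ^ i * zp z p x := by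
  unfold zp
  have h1 : z ^ ((x + i).val : ℤ) = z ^ (i + (x.val : ℤ)) := by
    rw [zpow_eq_zpow_iff_modEq, hD.ordz, ← ZMod.intCast_eq_intCast_iff]
    push_cast
    rw [ZMod.natCast_zmod_val, ZMod.natCast_zmod_val]
    ring
  rw [zpow_add, zpow_natCast, zpow_natCast] at h1
  exact h1

/-- the product of the two complexes has index at most one -/
lemma product_le [NeZero p] {c : G} (hD : Data c z p) :
    ind G ((complexX z).Space × (complexY z p hD).Space) ≤ 1 := by
  classical
  let Λ : (complexX z).V → (complexY z p hD).V → (joinComplex G 1).V := fun u q =>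
    ((u.1 * zp z p ((VY.val q) u.1⁻¹).1, ((VY.val q) u.1⁻¹).2) : G × Fin 2)
  have hΛ : ∀ (g : G) u v, Λ (g • u) (g • v) = g • Λ u v := by
    intro g u q
    change (((g * u.1) * zp z p ((VY.val q) ((g * u.1)⁻¹ * g)).1,
      ((VY.val q) ((g * u.1)⁻¹ * g)).2) : G × Fin 2) =
      (g * (u.1 * zp z p ((VY.val q) u.1⁻¹).1), ((VY.val q) u.1⁻¹).2)
    have : (g * u.1)⁻¹ * g = u.1⁻¹ := by group
    rw [this, mul_assoc]
  have hface : ∀ s ∈ (complexX z).K.faces, ∀ t ∈ (complexY z p hD).K.faces,
      ∃ r ∈ (joinComplex G 1).K.faces, ∀ u ∈ s, ∀ v ∈ t, Λ u v ∈ r := by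
    rintro s ⟨hs1, hs2, hs3⟩ t ⟨ht1, ht2, ht3⟩
    refine ⟨Finset.univ.filter fun w => ∃ u ∈ s, ∃ q ∈ t, Λ u q = w, ⟨?_, ?_⟩, ?_⟩
    · obtain ⟨u, hu⟩ := hs1
      obtain ⟨q, hq⟩ := ht1
      exact ⟨Λ u q, Finset.mem_filter.mpr ⟨Finset.mem_univ _, u, hu, q, hq, rfl⟩⟩
    · intro a ha b hb hab
      obtain ⟨_, u, hu, q, hq, rfl⟩ := Finset.mem_filter.mp ha
      obtain ⟨_, u', hu', q', hq', rfl⟩ := Finset.mem_filter.mp hb
      obtain ⟨i, hi⟩ := Subgroup.mem_zpowers_iff.mp (hs3 u hu u' hu').2
      have h3 : (u'.1 : G) = u.1 * z ^ i := by rw [hi]; group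
      have h4 : (u'.1 : G)⁻¹ = z ^ (-i) * u.1⁻¹ := by rw [h3, mul_inv_rev, zpow_neg]
      have h5 : (VY.val q') u'.1⁻¹ = (((VY.val q') u.1⁻¹).1 + ((-i : ℤ) : ZMod p),
          ((VY.val q') u.1⁻¹).2) := by
        rw [h4]
        exact VY_zpow z p q' (-i) u.1⁻¹
      have h6 : Λ u' q' = ((u.1 * zp z p ((VY.val q') u.1⁻¹).1, ((VY.val q') u.1⁻¹).2) :
          G × Fin 2) := by
        change ((u'.1 * zp z p ((VY.val q') u'.1⁻¹).1, ((VY.val q') u'.1⁻¹).2) : G × Fin 2) = _
        rw [h5]
        refine Prod.ext ?_ rfl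
        change u'.1 * zp z p (((VY.val q') u.1⁻¹).1 + ((-i : ℤ) : ZMod p)) =
          u.1 * zp z p ((VY.val q') u.1⁻¹).1
        rw [zp_intCast hD, h3, zpow_neg]
        group
      change (Λ u q).2 = (Λ u' q').2 at hab
      change Λ u q = Λ u' q'
      rw [h6] at hab ⊢
      have h7 : (VY.val q) u.1⁻¹ = (VY.val q') u.1⁻¹ := ht3 q hq q' hq' u.1⁻¹ hab
      change ((u.1 * zp z p ((VY.val q) u.1⁻¹).1, ((VY.val q) u.1⁻¹).2) : G × Fin 2) = _
      rw [h7]
    · intro u hu v hv
      exact Finset.mem_filter.mpr ⟨Finset.mem_univ _, u, hu, v, hv, rfl⟩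
  obtain ⟨f, hf⟩ := exists_product_map (complexX z) (complexY z p hD) (joinComplex G 1) Λ hΛ hface
  exact sInf_le ⟨1, rfl, f, hf⟩

/-- a continuous map from `ℝ` to `E_0 G` is constant -/
lemma const_of_E0 (γ : ℝ → (joinComplex G 0).Space) (hγ : Continuous γ) (s t : ℝ) :
    γ s = γ t := by
  classical
  apply Subtype.ext
  funext v
  have h01 : ∀ y : (joinComplex G 0).Space, y.1 v ∈ ({0, 1} : Set ℝ) := by
    intro y
    by_cases hy : y.1 v = 0
    · exact Or.inl hy
    · right
      obtain ⟨h0, h1, s, ⟨_, hs⟩, hsy⟩ := y.2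
      have h2 : ∀ w, w ≠ v → y.1 w = 0 := by
        intro w hw
        by_contra hcon
        exact hw (hs w (hsy w hcon) v (hsy v hy) (Subsingleton.elim (α := Fin 1) _ _))
      have h3 : ∑ w, y.1 w = y.1 v := Finset.sum_eq_single v (fun w _ hw => h2 w hw)
        (fun h => absurd (Finset.mem_univ v) h)
      rw [h3] at h1
      exact h1
  have hc : Continuous fun r : ℝ => (γ r).1 v :=
    (continuous_apply v).comp ((continuous_subtype_val
      (p := fun x => x ∈ realization (joinComplex G 0).K)).comp hγ)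
  have hd : IsDiscrete ({0, 1} : Set ℝ) := Set.Finite.isDiscrete (by simp)
  obtain ⟨y, _, hy⟩ := isPreconnected_univ.eqOn_const_of_mapsTo hd
    (f := fun r : ℝ => (γ r).1 v) hc.continuousOn (fun r _ => h01 (γ r)) ⟨0, by simp⟩
  exact (hy (Set.mem_univ s)).trans (hy (Set.mem_univ t)).symm

end final



section final

variable {G : Type} [Group G] [Fintype G] {z : G} {p : ℕ}

lemma exists_l {c : G} [NeZero p] (hD : Data c z p) :
    ∃ l : G → ZMod (p ^ 2), (∀ g, l (g * c) = l g + 1) ∧
      ∀ g, l (z * g) = l g + ((p : ℕ) : ZMod (p ^ 2)) := by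
  have hex := exists_right_coord c
  rw [hD.hc] at hex
  obtain ⟨l, hlc⟩ := hex
  have hlci : ∀ (i : ℕ) (g : G), l (g * c ^ i) = l g + (i : ZMod (p ^ 2)) := by
    intro i
    induction i with
    | zero => intro g; simp
    | succ i ih =>
      intro g
      have e : g * c ^ (i + 1) = g * c ^ i * c := by rw [pow_succ, mul_assoc]
      rw [e, hlc, ih]
      push_cast
      ring
  refine ⟨l, hlc, fun g => ?_⟩
  rw [hD.central, ← hD.hz, hlci]

/-- the product of the two complexes has index at least one -/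
lemma product_ge [NeZero p] {c : G} (hD : Data c z p) :
    1 ≤ ind G ((complexX z).Space × (complexY z p hD).Space) := by
  classical
  refine le_sInf ?_
  rintro n ⟨k, rfl, F, hF⟩
  rcases Nat.eq_zero_or_pos k with rfl | hk
  · exfalso
    obtain ⟨l, _, hl⟩ := exists_l hD
    let q : VY z p := qq l hl 0 0
    let m : VY z p := qq l hl 0 1
    have hqm : relY z p q m := by
      intro g hg
      have : (0 : Fin 2) = 1 := hg
      exact absurd this (by decide)
    have hmq : relY z p m (z • q) := by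
      intro g hg
      have : (1 : Fin 2) = 0 := hg
      exact absurd this (by decide)
    let X := complexX z
    let Y := complexY z p hD
    have hX1 : {vx z 0 0, vx z 0 1} ∈ X.K.faces := vx_mem2 z 0 0 0 1 (by decide)
    have hX2 : {vx z 0 1, vx z 1 0} ∈ X.K.faces := vx_mem2 z 0 1 1 0 (by decide)
    have hY1 : {(q : Y.V), m} ∈ Y.K.faces :=
      flag3_mem2 (relY z p) (relY_refl z p) q m hqm (relY_symm hqm)
    have hY2 : {(m : Y.V), z • q} ∈ Y.K.faces :=
      flag3_mem2 (relY z p) (relY_refl z p) m (z • q) hmq (relY_symm hmq)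
    have key : ∀ (u u' : X.V) (w w' : Y.V) (hu : {u, u'} ∈ X.K.faces) (hw : {w, w'} ∈ Y.K.faces),
        F (⟨pt u, pt_mem X.K u⟩, ⟨pt w, pt_mem Y.K w⟩) =
          F (⟨pt u', pt_mem X.K u'⟩, ⟨pt w', pt_mem Y.K w'⟩) := by
      intro u u' w w' hu hw
      have h1 := const_of_E0 (fun t => F (⟨seg u u' t, seg_mem X.K u u' hu t⟩,
        ⟨seg w w' t, seg_mem Y.K w w' hw t⟩)) (hF.comp (Continuous.prodMk
          (Continuous.subtype_mk (seg_cont u u') _) (Continuous.subtype_mk (seg_cont w w') _))) 0 1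
      simp only [seg_zero, seg_one] at h1
      exact h1
    have h1 := key _ _ _ _ hX1 hY1
    have h2 := key _ _ _ _ hX2 hY2
    have h3 : F (⟨pt (vx z 1 0), pt_mem X.K _⟩, ⟨pt (V := Y.V) (z • q), pt_mem Y.K _⟩) =
        z • F (⟨pt (vx z 0 0), pt_mem X.K _⟩, ⟨pt (V := Y.V) q, pt_mem Y.K _⟩) := by
      rw [← F.map_smul]
      congr 1
      refine Prod.ext ?_ ?_
      · apply Subtype.ext
        change pt (vx z 1 0) = _
        have : vx z 1 0 = z • vx z 0 0 := (vx_smul z 0 0).symm
        rw [this]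
        exact pt_smul X z (vx z 0 0)
      · apply Subtype.ext
        exact pt_smul Y z q
    have h4 := h1.trans (h2.trans h3)
    set y := F (⟨pt (vx z 0 0), pt_mem X.K _⟩, ⟨pt (V := Y.V) q, pt_mem Y.K _⟩) with hy
    have h5 := (joinComplex G 0).free z y.1 y.2 (congrArg Subtype.val h4).symm
    have h6 := hD.ordz
    rw [h5, orderOf_one] at h6
    have := hD.hp
    omega
  · exact_mod_cast hk

lemma main_of_data [NeZero p] {c : G} (hD : Data c z p) :
    ∃ K₁ K₂ : FreeComplex G, ind G K₁.Space = 2 ∧ ind G K₂.Space = 2 ∧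
      ind G (K₁.Space × K₂.Space) = 1 := by
  refine ⟨complexX z, complexY z p hD, ?_, ?_, ?_⟩
  · refine le_antisymm (complexX_ind_le z) (two_le_ind _ fun k hk f => ?_)
    exact complexX_no_map z c p hD.hp hD.hc hD.hz k hk f
  · refine le_antisymm (mk3_ind_le _ _ _ _ _) (two_le_ind _ fun k hk f => ?_)
    exact complexY_no_map hD k hk f
  · exact le_antisymm (product_le hD) (product_ge hD)

lemma data_of_cyclic (hG : IsCyclic G) {p k : ℕ} (hp : p.Prime) (hk : 2 ≤ k)
    (hcard : Nat.card G = p ^ k) : ∃ c z : G, Data c z p := by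
  obtain ⟨g₀, hg₀⟩ := hG.exists_generator
  have hord : orderOf g₀ = p ^ k := by
    rw [← hcard]
    exact orderOf_eq_card_of_forall_mem_zpowers hg₀
  obtain ⟨k, rfl⟩ : ∃ k', k = k' + 2 := ⟨k - 2, by omega⟩
  have hpp := hp.pos
  refine ⟨g₀ ^ p ^ k, (g₀ ^ p ^ k) ^ p, hp.one_lt, ?_, rfl, ?_, ?_⟩
  · rw [orderOf_pow_of_dvd (by positivity) (by rw [hord]; exact pow_dvd_pow p (by omega)), hord,
      pow_add, Nat.mul_div_cancel_left _ (by positivity)]
  · intro g
    obtain ⟨i, rfl⟩ := Subgroup.mem_zpowers_iff.mp (hg₀ g)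
    exact ((((Commute.refl g₀).pow_left _).pow_left _).zpow_right i).eq
  · intro g hg
    have h1 : orderOf g ∣ p ^ (k + 2) := by
      rw [← hcard]
      exact orderOf_dvd_natCard g
    have h2 : orderOf g ≠ 1 := fun h => hg (orderOf_eq_one_iff.mp h)
    have h3 : p ∣ orderOf g := by
      obtain ⟨j, hj, hj'⟩ := (Nat.dvd_prime_pow hp).mp h1
      rw [hj'] at h2 ⊢
      refine dvd_pow_self p (fun h => h2 (by rw [h, pow_zero]))
    have h4 : orderOf (g ^ (orderOf g / p)) = p := by
      rw [orderOf_pow_of_dvd (Nat.div_pos (Nat.le_of_dvd (orderOf_pos g) h3) hpp).ne'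
        (Nat.div_dvd_of_dvd h3), Nat.div_div_self h3 (orderOf_pos g).ne']
    refine ⟨orderOf g / p, fun h => ?_, ?_⟩
    · rw [h, orderOf_one] at h4
      exact hp.one_lt.ne h4
    · generalize hh : g ^ (orderOf g / p) = h at h4
      obtain ⟨i, rfl⟩ := Subgroup.mem_zpowers_iff.mp (hg₀ h)
      have h5 : (g₀ ^ i) ^ p = 1 := by rw [← h4]; exact pow_orderOf_eq_one _
      rw [← zpow_natCast, ← zpow_mul] at h5
      have h6 := orderOf_dvd_iff_zpow_eq_one.mpr h5
      rw [hord] at h6
      have h7 : ((p : ℤ) ^ (k + 1)) ∣ i := by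
        have : ((p : ℤ) ^ (k + 1)) * p ∣ i * p := by
          have h8 : ((p ^ (k + 2) : ℕ) : ℤ) = (p : ℤ) ^ (k + 1) * p := by push_cast; ring
          rw [← h8]
          exact h6
        exact Int.dvd_of_mul_dvd_mul_right (by exact_mod_cast hpp.ne') this
      obtain ⟨j, rfl⟩ := h7
      rw [Subgroup.mem_zpowers_iff]
      refine ⟨j, ?_⟩
      rw [← pow_mul, ← pow_succ, ← zpow_natCast, ← zpow_mul]
      congr 1

lemma data_of_quaternion {m : ℕ} (hm : 1 ≤ m) (e : G ≃* QuaternionGroup (2 ^ m)) :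
    ∃ c z : G, Data c z 2 := by
  have hne : NeZero (2 ^ m) := ⟨pow_ne_zero _ (by norm_num)⟩
  have hcent : ∀ q : QuaternionGroup (2 ^ m), QuaternionGroup.xa 0 ^ 2 * q =
      q * QuaternionGroup.xa 0 ^ 2 := by
    intro q
    rw [QuaternionGroup.xa_sq]
    rcases q with i | i
    · rw [QuaternionGroup.a_mul_a, QuaternionGroup.a_mul_a, add_comm]
    · rw [QuaternionGroup.a_mul_xa, QuaternionGroup.xa_mul_a]
      congr 1
      have : ((2 * 2 ^ m : ℕ) : ZMod (2 * 2 ^ m)) = 0 := ZMod.natCast_self _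
      push_cast at this ⊢
      linear_combination -this
  have hz : e.symm (QuaternionGroup.xa 0) ^ 2 = e.symm (QuaternionGroup.xa 0 ^ 2) := by
    rw [map_pow]
  refine ⟨e.symm (QuaternionGroup.xa 0), e.symm (QuaternionGroup.xa 0) ^ 2, by norm_num, ?_, rfl,
    ?_, ?_⟩
  · rw [MulEquiv.orderOf_eq, QuaternionGroup.orderOf_xa]
    norm_num
  · intro g
    rw [hz]
    apply e.injective
    rw [map_mul, map_mul, e.apply_symm_apply]
    exact hcent _
  · intro g hg
    have hcard : Nat.card G = 2 ^ (m + 2) := by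
      rw [Nat.card_congr e.toEquiv, Nat.card_eq_fintype_card, QuaternionGroup.card]
      ring
    have h1 : orderOf g ∣ 2 ^ (m + 2) := by
      rw [← hcard]
      exact orderOf_dvd_natCard g
    have h2 : orderOf g ≠ 1 := fun h => hg (orderOf_eq_one_iff.mp h)
    have h3 : 2 ∣ orderOf g := by
      obtain ⟨j, hj, hj'⟩ := (Nat.dvd_prime_pow Nat.prime_two).mp h1
      rw [hj'] at h2 ⊢
      refine dvd_pow_self 2 (fun h => h2 (by rw [h, pow_zero]))
    have h4 : orderOf (g ^ (orderOf g / 2)) = 2 := by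
      rw [orderOf_pow_of_dvd (Nat.div_pos (Nat.le_of_dvd (orderOf_pos g) h3) (by norm_num)).ne'
        (Nat.div_dvd_of_dvd h3), Nat.div_div_self h3 (orderOf_pos g).ne']
    refine ⟨orderOf g / 2, fun h => ?_, ?_⟩
    · rw [h, orderOf_one] at h4
      norm_num at h4
    · generalize hh : g ^ (orderOf g / 2) = h at h4
      have h5 : h = e.symm (QuaternionGroup.xa 0) ^ 2 := by
        rw [hz, ← e.symm_apply_apply h]
        congr 1
        rw [QuaternionGroup.xa_sq]
        have h6 : orderOf (e h) = 2 := by rw [MulEquiv.orderOf_eq, h4]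
        rcases hq : e h with i | i
        · rw [hq] at h6
          have h7 := pow_orderOf_eq_one (QuaternionGroup.a i : QuaternionGroup (2 ^ m))
          rw [h6] at h7
          have h8 : (QuaternionGroup.a i : QuaternionGroup (2 ^ m)) ≠ 1 := by
            intro h9
            rw [h9, orderOf_one] at h6
            norm_num at h6
          rw [sq, QuaternionGroup.a_mul_a, QuaternionGroup.one_def] at h7
          rw [Ne, QuaternionGroup.one_def] at h8
          have h9 : i + i = 0 := QuaternionGroup.a.inj h7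
          have h10 : i ≠ 0 := fun h => h8 (by rw [h])
          congr 1
          have h11 : NeZero (2 * 2 ^ m) := ⟨by positivity⟩
          have h12 : (i.val + i.val) % (2 * 2 ^ m) = 0 := by
            rw [← ZMod.val_add, h9, ZMod.val_zero]
          have h13 := ZMod.val_lt i
          have h14 : 0 < i.val := Nat.pos_of_ne_zero (fun h => h10 ((ZMod.val_eq_zero i).mp h))
          have h15 : i.val = 2 ^ m := by
            obtain ⟨j, hj⟩ := Nat.dvd_of_mod_eq_zero h12
            have hj1 : j < 2 := by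
              by_contra hcon
              push Not at hcon
              have : 2 * 2 ^ m * 2 ≤ 2 * 2 ^ m * j := Nat.mul_le_mul_left _ hcon
              omega
            have hj2 : 0 < j := by
              rcases Nat.eq_zero_or_pos j with rfl | h
              · omega
              · exact h
            have hj3 : j = 1 := by omega
            rw [hj3] at hj
            omega
          rw [← ZMod.natCast_zmod_val i, h15]
        · rw [hq, QuaternionGroup.orderOf_xa] at h6
          norm_num at h6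
      rw [h5]
      exact Subgroup.mem_zpowers _

end final

end Pool.Agent.Lib_MP_19f4d1_co
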